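import Pool.Agent.Run7.h145.QX.H

/-! Values of quadratic polynomials: polynomials with equidistributed values. -/

set_option autoImplicit false

namespace Pool.Agent.Run7.h145.QX

open Finset Filter Topology
open Pool.Agent.H499R2.ND
open Pool.Agent.Run7.h145.QP (Pol Sy Lf Pol_add)
open Pool.Agent.Run7.h145.QL
open Pool.Agent.Run7.h145.QL.X

variable {k : ℕ}

/-- The values are equidistributed modulo the powers of two. -/
def Uni (A : Fin k → Fin k → ℤ) (l : Fin k → ℤ) (c : ℤ) : Prop := ∀ K m : ℕ, m < 2 ^ K →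
  2 ^ K * {r : Fin k → ℤ | (∀ i, 0 ≤ r i ∧ r i < 2 ^ K) ∧ Val A l c r ≡ m [ZMOD 2 ^ K]}.ncard = (2 ^ K) ^ k

open Classical in
theorem cls_ncard (K : ℕ) (Q : (Fin k → ℤ) → Prop) :
    {r : Fin k → ℤ | (∀ i, 0 ≤ r i ∧ r i < 2 ^ K) ∧ Q r}.ncard =
      #((Fintype.piFinset (fun _ : Fin k => Ico (0 : ℤ) ((2 ^ K : ℕ) : ℤ))).filter Q) := by
  rw [← Set.ncard_coe_finset]
  congr 1
  ext x
  rw [mem_coe, mem_filter, Fintype.mem_piFinset]
  simp only [mem_Ico]
  push_cast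
  rfl

theorem sig_uni {A : Fin k → Fin k → ℤ} {l : Fin k → ℤ} {c : ℤ} (h : Uni A l c) (lam : ℝ) (K : ℕ) :
    sig A l c lam K = rK K lam := by
  classical
  have h2K : (0 : ℤ) < 2 ^ K := by positivity
  set F := Fintype.piFinset (fun _ : Fin k => Ico (0 : ℤ) ((2 ^ K : ℕ) : ℤ)) with hF
  have hmaps : ∀ r ∈ F.filter (fun r => AK K lam (Val A l c r % 2 ^ K).toNat),
      (Val A l c r % 2 ^ K).toNat ∈ (range (2 ^ K)).filter (AK K lam) := by
    intro r hr
    rw [mem_filter] at hr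
    rw [mem_filter, mem_range]
    refine ⟨?_, hr.2⟩
    have h1 := Int.emod_nonneg (Val A l c r) h2K.ne'
    have h2 := Int.emod_lt_of_pos (Val A l c r) h2K
    have h3 : (((Val A l c r % 2 ^ K).toNat : ℕ) : ℤ) < ((2 ^ K : ℕ) : ℤ) := by
      rw [Int.toNat_of_nonneg h1]; push_cast; exact h2
    exact_mod_cast h3
  have h1 := card_eq_sum_card_fiberwise hmaps
  have h2 : ∀ m ∈ (range (2 ^ K)).filter (AK K lam),
      (#((F.filter (fun r => AK K lam (Val A l c r % 2 ^ K).toNat)).filter (fun r => (Val A l c r % 2 ^ K).toNat = m)) : ℝ) =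
        ((2 ^ K : ℕ) : ℝ) ^ k / 2 ^ K := by
    intro m hm
    rw [mem_filter, mem_range] at hm
    have h3 := h K m hm.1
    rw [cls_ncard] at h3
    have e : (F.filter (fun r => AK K lam (Val A l c r % 2 ^ K).toNat)).filter (fun r => (Val A l c r % 2 ^ K).toNat = m) =
        F.filter (fun r => Val A l c r ≡ m [ZMOD 2 ^ K]) := by
      rw [filter_filter]
      apply filter_congr
      intro r _
      have g1 := Int.emod_nonneg (Val A l c r) h2K.ne'
      have hm' : (m : ℤ) % 2 ^ K = m := Int.emod_eq_of_lt (by omega) (by exact_mod_cast hm.1)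
      constructor
      · rintro ⟨-, g2⟩
        show Val A l c r % 2 ^ K = m % 2 ^ K
        rw [hm']
        omega
      · intro g2
        have g3 : Val A l c r % 2 ^ K = m % 2 ^ K := g2
        rw [hm'] at g3
        rw [g3, Int.toNat_natCast]
        exact ⟨hm.2, rfl⟩
    rw [e]
    have h4 : (2 : ℝ) ^ K * (#(F.filter (fun r => Val A l c r ≡ m [ZMOD 2 ^ K])) : ℝ) = ((2 ^ K : ℕ) : ℝ) ^ k := by
      exact_mod_cast h3
    rw [← h4]
    field_simp
  unfold sig rK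
  rw [h1]
  push_cast
  rw [sum_congr rfl h2, sum_const, nsmul_eq_mul]
  push_cast
  field_simp

open Classical in
/-- EQUIDISTRIBUTED VALUES: the same law as for the integers -/
theorem uni_law {A : Fin k → Fin k → ℤ} (hA : RankTwo A) {l : Fin k → ℤ} {c : ℤ} {x₀ : Fin k → ℤ}
    (h0 : 0 < ∑ i, ∑ j, A i j * x₀ i * x₀ j) (hU : Uni A l c) {lam δ : ℝ} (hlam : 1 ≤ lam)
    (hδ : Dn (Ex lam) δ) :
    Tendsto (fun N : ℕ => (#{x ∈ cb k N | 0 < Val A l c x ∧ Ex lam (Val A l c x).toNat} : ℝ) /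
      #{x ∈ cb k N | 0 < Val A l c x}) atTop (𝓝 δ) := by
  obtain ⟨β, b0, b1, -, hβ⟩ := Bdd_density
  obtain ⟨σ, h1, -, -⟩ := sig_lim hA l c h0 lam
  have h2 := limit_law b0.le b1 FI_Bdd hβ hA l c h0 hlam h1
  have e : ∀ n, (Bdd n ∧ Ex lam n) ↔ Ex lam n := fun n => ⟨fun h => h.2, fun h => ⟨Ex_Bdd h, h⟩⟩
  simp only [e] at h2
  obtain ⟨q, h3, -, -, h4⟩ := exc_law hβ hlam
  have h5 : Tendsto (sig A l c lam) atTop (𝓝 q) := h3.congr fun K => (sig_uni hU lam K).symm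
  have h6 : σ = q := tendsto_nhds_unique h1 h5
  have h7 : δ = β * q := tendsto_nhds_unique hδ h4
  rw [h7, ← h6]
  exact h2

/-- the polynomial `(2 x + 1) y` -/
def OA : Fin 2 → Fin 2 → ℤ := ![![0, 2], ![0, 0]]

def OL : Fin 2 → ℤ := ![0, 1]

theorem o_val (x : Fin 2 → ℤ) : Val OA OL 0 x = (2 * x 0 + 1) * x 1 := by
  unfold Val OA OL
  simp [Fin.sum_univ_two]
  ring

theorem o_rank : RankTwo OA := by
  refine ⟨0, 1, 0, 1, ?_⟩
  unfold OA
  simp

theorem o_uni : Uni OA OL 0 := by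
  classical
  intro K m hm
  have h2K : (0 : ℤ) < 2 ^ K := by positivity
  have hco : ∀ x : ℤ, IsCoprime (2 * x + 1) ((2 : ℤ) ^ K) := by
    intro x
    apply IsCoprime.pow_right
    exact ⟨1, -x, by ring⟩
  have hcard : {r : Fin 2 → ℤ | (∀ i, 0 ≤ r i ∧ r i < 2 ^ K) ∧ Val OA OL 0 r ≡ m [ZMOD 2 ^ K]}.ncard = 2 ^ K := by
    have e : (fun r : Fin 2 → ℤ => r 0) '' {r : Fin 2 → ℤ | (∀ i, 0 ≤ r i ∧ r i < 2 ^ K) ∧ Val OA OL 0 r ≡ m [ZMOD 2 ^ K]} =
        ((Ico (0 : ℤ) ((2 ^ K : ℕ) : ℤ) : Finset ℤ) : Set ℤ) := by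
      ext x
      rw [mem_coe, mem_Ico]
      constructor
      · rintro ⟨r, ⟨h1, -⟩, rfl⟩
        push_cast
        exact h1 0
      · rintro ⟨h1, h2⟩
        push_cast at h2
        obtain ⟨a, b, hab⟩ := hco x
        refine ⟨![x, (a * m) % 2 ^ K], ⟨fun i => ?_, ?_⟩, rfl⟩
        · fin_cases i
          · exact ⟨h1, h2⟩
          · exact ⟨Int.emod_nonneg _ h2K.ne', Int.emod_lt_of_pos _ h2K⟩
        · rw [o_val]
          show (2 * x + 1) * ((a * m) % 2 ^ K) ≡ m [ZMOD 2 ^ K]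
          have h3 : (a * m) % 2 ^ K ≡ a * m [ZMOD 2 ^ K] := Int.mod_modEq _ _
          have h4 := h3.mul_left (2 * x + 1)
          refine h4.trans ?_
          have h5 : (2 * x + 1) * (a * m) = m + 2 ^ K * (-(b * m)) := by
            have : a * (2 * x + 1) = 1 - b * 2 ^ K := by linarith
            calc (2 * x + 1) * (a * m) = (a * (2 * x + 1)) * m := by ring
              _ = _ := by rw [this]; ring
          rw [h5]
          exact Int.modEq_iff_dvd.2 ⟨b * m, by ring⟩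
    have hinj : Set.InjOn (fun r : Fin 2 → ℤ => r 0)
        {r : Fin 2 → ℤ | (∀ i, 0 ≤ r i ∧ r i < 2 ^ K) ∧ Val OA OL 0 r ≡ m [ZMOD 2 ^ K]} := by
      rintro r ⟨h1, h2⟩ r' ⟨h1', h2'⟩ h3
      have h4 : r 0 = r' 0 := h3
      have h5 := h2.trans h2'.symm
      rw [o_val, o_val, ← h4] at h5
      have h6 : (2 : ℤ) ^ K ∣ (2 * r 0 + 1) * (r' 1 - r 1) := by
        rw [mul_sub]; exact Int.modEq_iff_dvd.1 h5
      have h7 : (2 : ℤ) ^ K ∣ r' 1 - r 1 := (hco (r 0)).symm.dvd_of_dvd_mul_left h6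
      have h8 : r 1 = r' 1 := by
        have h9 : r 1 ≡ r' 1 [ZMOD 2 ^ K] := Int.modEq_iff_dvd.2 h7
        have h10 : r 1 % 2 ^ K = r' 1 % 2 ^ K := h9
        rwa [Int.emod_eq_of_lt (h1 1).1 (h1 1).2, Int.emod_eq_of_lt (h1' 1).1 (h1' 1).2] at h10
      ext i
      fin_cases i
      · exact h4
      · exact h8
    rw [← hinj.ncard_image, e, Set.ncard_coe_finset, Int.card_Ico, sub_zero, Int.toNat_natCast]
  rw [hcard]
  ring

theorem o_pos : 0 < ∑ i, ∑ j, OA i j * (![1, 1] : Fin 2 → ℤ) i * (![1, 1] : Fin 2 → ℤ) j := by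
  unfold OA
  simp [Fin.sum_univ_two]

end Pool.Agent.Run7.h145.QX
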