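import Pool.Agent.Run7.h145.QL.B
import Pool.Agent.H499R2.NDWord

/-! Values of quadratic polynomials: counting in periodic sets, and functions constant on the trajectories
that coalesce above a large height. -/

set_option autoImplicit false

namespace Pool.Agent.Run7.h145.QX

open Finset Pool.Agent.H499R2.CO Pool.Agent.Y967.CM Filter Topology Pool.Agent.Run7.h145.QP
  Pool.Agent.Run7.h145.QL

variable {ι : Type} [Fintype ι] [DecidableEq ι]

/-- the number of steps -/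
def tq (T : ℕ) : ℕ := Nat.sqrt T * Nat.sqrt (Nat.sqrt T)

theorem tq_le (T : ℕ) : tq T ≤ T := by
  unfold tq
  calc Nat.sqrt T * Nat.sqrt (Nat.sqrt T) ≤ Nat.sqrt T * Nat.sqrt T := Nat.mul_le_mul_left _ (Nat.sqrt_le_self _)
    _ ≤ T := Nat.sqrt_le T

theorem rate_tq {ε : ℝ} (hε : 0 < ε) : ∃ T₀ : ℕ, ∀ T : ℕ, T₀ ≤ T → 1 ≤ tq T ∧
    √ (1 + ((0 : ℕ) : ℝ) ^ 2 + (Nat.sqrt T : ℕ)) * rho (tq T) ≤ ε := by
  set v₀ : ℕ := ⌈(24 / ε ^ 2) ^ 2⌉₊ + 1 with hv₀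
  refine ⟨v₀ ^ 4, fun T hT => ?_⟩
  set u := Nat.sqrt T with hu
  set v := Nat.sqrt u with hv
  have hu1 : v₀ ^ 2 ≤ u := by
    rw [hu]; apply Nat.le_sqrt'.2
    calc (v₀ ^ 2) ^ 2 = v₀ ^ 4 := by ring
      _ ≤ T := hT
  have hv1 : v₀ ≤ v := by rw [hv]; exact Nat.le_sqrt'.2 hu1
  have hv11 : 1 ≤ v := by omega
  have hu11 : 1 ≤ u := le_trans (Nat.one_le_pow _ _ (by omega)) hu1
  have htq : tq T = u * v := rfl
  have huv : u < (v + 1) ^ 2 := Nat.lt_succ_sqrt' u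
  refine ⟨by rw [htq]; exact Nat.mul_pos hu11 hv11, ?_⟩
  have hvr : (1 : ℝ) ≤ v := by exact_mod_cast hv11
  have hur : (1 : ℝ) ≤ u := by exact_mod_cast hu11
  set y : ℝ := √ ((v : ℝ) + 1) with hy
  have hy0 : 0 < y := Real.sqrt_pos.2 (by linarith)
  have hy2 : y ^ 2 = v + 1 := Real.sq_sqrt (by linarith)
  have hyb : 24 / ε ^ 2 ≤ y := by
    apply Real.le_sqrt_of_sq_le
    have h1 := Nat.le_ceil ((24 / ε ^ 2) ^ 2)
    have h2 : ((⌈(24 / ε ^ 2) ^ 2⌉₊ + 1 : ℕ) : ℝ) ≤ v := by exact_mod_cast hv1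
    push_cast at h2
    linarith
  have hl : Real.log ((u * v : ℕ) + 1) ≤ 6 * y := by
    have h1 : ((u * v : ℕ) : ℝ) + 1 ≤ y ^ 6 := by
      have e : y ^ 6 = ((v : ℝ) + 1) ^ 3 := by
        calc y ^ 6 = (y ^ 2) ^ 3 := by ring
          _ = _ := by rw [hy2]
      rw [e]
      have h2 : (u : ℝ) ≤ ((v : ℝ) + 1) ^ 2 := by exact_mod_cast huv.le
      push_cast
      nlinarith
    calc Real.log ((u * v : ℕ) + 1) ≤ Real.log (y ^ 6) := Real.log_le_log (by positivity) h1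
      _ = 6 * Real.log y := by rw [Real.log_pow]; norm_num
      _ ≤ 6 * y := by
          have := Real.log_le_self hy0.le
          linarith
  have hlog0 : 0 ≤ Real.log (((u * v : ℕ) : ℝ) + 1) := Real.log_nonneg (by
    have : (0 : ℝ) ≤ ((u * v : ℕ) : ℝ) := Nat.cast_nonneg _
    linarith)
  unfold rho
  rw [← Real.sqrt_mul (by positivity)]
  apply Real.sqrt_le_iff.2
  refine ⟨hε.le, ?_⟩
  rw [htq]
  have h5 : (1 + ((0 : ℕ) : ℝ) ^ 2 + (u : ℝ)) * (Real.log ((u * v : ℕ) + 1) / (u * v : ℕ)) ≤ (2 * u) * (6 * y / (u * v)) := by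
    push_cast at hl ⊢
    have h6 : (1 : ℝ) + 0 ^ 2 + u ≤ 2 * u := by linarith
    have h7 : Real.log ((u : ℝ) * v + 1) / ((u : ℝ) * v) ≤ 6 * y / (u * v) := by gcongr
    push_cast at hlog0
    have h8 : 0 ≤ Real.log ((u : ℝ) * v + 1) / ((u : ℝ) * v) := by positivity
    exact mul_le_mul h6 h7 h8 (by positivity)
  refine h5.trans ?_
  have h6 : (2 * (u : ℝ)) * (6 * y / (u * v)) = 12 * y / v := by
    have : (u : ℝ) ≠ 0 := by positivity
    field_simp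
    ring
  rw [h6]
  have h7 : 24 ≤ y * ε ^ 2 := by rwa [div_le_iff₀ (by positivity)] at hyb
  rw [div_le_iff₀ (by linarith)]
  have h8 : y ^ 2 ≤ 2 * v := by rw [hy2]; linarith
  have h9 : 24 * y ≤ y * ε ^ 2 * y := mul_le_mul_of_nonneg_right h7 hy0.le
  nlinarith [sq_nonneg ε]

open Classical in
theorem block_count {k : ℕ} (P : ℤ → Prop) (hP : ∀ y m : ℤ, P (y + m * 2 ^ k) ↔ P y) (i : ℕ) :
    #{c ∈ range (2 ^ (k + i)) | P ((c : ℕ) : ℤ)} = 2 ^ i * #{c ∈ range (2 ^ k) | P ((c : ℕ) : ℤ)} := by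
  induction i with
  | zero => simp
  | succ i ih =>
    rw [← Nat.count_eq_card_filter_range, show 2 ^ (k + (i + 1)) = 2 ^ (k + i) + 2 ^ (k + i) by ring, Nat.count_add,
      Nat.count_eq_card_filter_range]
    have e : Nat.count (fun x : ℕ => P (((2 ^ (k + i) + x : ℕ)) : ℤ)) (2 ^ (k + i)) =
        #{c ∈ range (2 ^ (k + i)) | P ((c : ℕ) : ℤ)} := by
      rw [Nat.count_eq_card_filter_range]
      congr 1
      apply filter_congr
      intro x _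
      have e2 : (((2 ^ (k + i) + x : ℕ)) : ℤ) = (x : ℤ) + 2 ^ i * 2 ^ k := by push_cast; ring
      rw [e2, hP]
    rw [e, ih]
    ring

open Classical in
/-- COUNTING IN PERIODIC SETS -/
theorem per_count (A : ι → ι → ℤ) (l : ι → ℤ) (c : ℤ) {a b : ι → ℤ} {n : ℕ} (hn : ∀ i, b i - a i ≤ n) (p : ι)
    {j T k : ℕ} (hj : 1 ≤ j) (hjT : j ≤ T) (hT : n < 2 ^ (T + 1)) (hT' : 2 ^ T ≤ n) (hkT : k ≤ T)
    (P : ℤ → Prop) (hP : ∀ y m : ℤ, P (y + m * 2 ^ k) ↔ P y) {δ : ℝ}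
    (hδ : (#{c ∈ range (2 ^ k) | P ((c : ℕ) : ℤ)} : ℝ) ≤ δ * 2 ^ k) :
    (#{x ∈ Fintype.piFinset (fun i => Ioc (a i) (b i)) | ¬ (2 : ℤ) ^ j ∣ Dl A l x p ∧ P (Pol A l c x)} : ℝ) ≤
      4 * 4 ^ j * δ * n ^ Fintype.card ι := by
  have hι : 1 ≤ Fintype.card ι := Fintype.card_pos_iff.2 ⟨p⟩
  have hδ0 : 0 ≤ δ := by
    by_contra h
    push Not at h
    have h1 : (0 : ℝ) ≤ #{c ∈ range (2 ^ k) | P ((c : ℕ) : ℤ)} := Nat.cast_nonneg _
    have h2 : δ * 2 ^ k < 0 := mul_neg_of_neg_of_pos h (by positivity)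
    linarith
  have hcount : (#{c ∈ range (2 ^ T) | P ((c : ℕ) : ℤ)} : ℝ) ≤ δ * n := by
    obtain ⟨i, rfl⟩ := Nat.exists_eq_add_of_le hkT
    rw [block_count P hP i]
    push_cast
    calc (2 : ℝ) ^ i * (#{c ∈ range (2 ^ k) | P ((c : ℕ) : ℤ)} : ℝ) ≤ 2 ^ i * (δ * 2 ^ k) := by gcongr
      _ = δ * 2 ^ (k + i) := by rw [pow_add]; ring
      _ ≤ δ * n := by
          apply mul_le_mul_of_nonneg_left _ hδ0
          exact_mod_cast hT'
  have hPT : ∀ y m : ℤ, P (y + m * 2 ^ T) ↔ P y := by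
    intro y m
    obtain ⟨i, rfl⟩ := Nat.exists_eq_add_of_le hkT
    have e : y + m * 2 ^ (k + i) = y + (m * 2 ^ i) * 2 ^ k := by rw [pow_add]; ring
    rw [e, hP]
  have h := line_count hn p (fun x => ¬ (2 : ℤ) ^ j ∣ Dl A l x p ∧ P (Pol A l c x))
    (C := 4 * 4 ^ j * (δ * n)) (by
      intro z
      have h1 := periodic_count' (fun t => Pol A l c (Function.update z p t))
        ((Ioc (a p) (b p)).filter (fun t => ¬ (2 : ℤ) ^ j ∣ Dl A l (Function.update z p t) p)) (T := T)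
        (B := 4 * 4 ^ j) (fun r => line_class A l c hn p z hj hjT hT r) P hPT
      rw [filter_filter] at h1
      refine h1.trans ?_
      gcongr)
  refine h.trans (le_of_eq ?_)
  have e : (n : ℝ) ^ Fintype.card ι = n * n ^ (Fintype.card ι - 1) := by
    rw [← pow_succ']; congr 1; omega
  rw [e]; ring

/-- functions constant on the trajectories that merge with all terms above the height `R0` -/
def SameH (R0 : ℕ) : Set (ℤ → ℝ) :=
  {f | (∀ x, |f x| ≤ 1) ∧ ∀ (t : ℕ) (x y : ℤ), (Tz 1)^[t] x = (Tz 1)^[t] y →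
    (∀ i ≤ t, (R0 : ℤ) < (Tz 1)^[i] x) → (∀ i ≤ t, (R0 : ℤ) < (Tz 1)^[i] y) → f x = f y}

open Classical in
/-- Few values do not merge with a given neighbour. -/
theorem bad_count_h (A : ι → ι → ℤ) {p r : ι} (hpr : Sy A p r ≠ 0) {ε : ℝ} (hε : 0 < ε) :
    ∃ n₀ : ℕ, ∀ n : ℕ, n₀ ≤ n → ∀ h : ℤ, 0 ≤ h → h ≤ 4 ^ Nat.sqrt (Nat.log 2 n) →
      ∀ (l : ι → ℤ) (c : ℤ) (a b : ι → ℤ), (∀ i, b i - a i ≤ n) → ∀ (R0 : ℕ) (f : ℤ → ℝ), f ∈ SameH R0 →
      (#{x ∈ Fintype.piFinset (fun i => Ioc (a i) (b i)) |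
        (2 : ℤ) ^ tq (Nat.log 2 n) * R0 < Pol A l c x ∧ f (Pol A l c x + h) ≠ f (Pol A l c x)} : ℝ) ≤
        ε * n ^ Fintype.card ι := by
  obtain ⟨C, hC, hq⟩ := q_rate
  have hι : 1 ≤ Fintype.card ι := Fintype.card_pos_iff.2 ⟨p⟩
  set v := (Sy A p r).natAbs with hv
  obtain ⟨i, hi⟩ : ∃ i : ℕ, 3 / ε < 2 ^ i := pow_unbounded_of_one_lt _ (by norm_num)
  set j := v + i + 1 with hj
  obtain ⟨T₀, hrate⟩ := rate_tq (ε := ε / 3 / (4 * 4 ^ j * C)) (by positivity)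
  refine ⟨2 ^ (T₀ + j) + ⌈6 / ε⌉₊ + 1, fun n hn h hh0 hh l c a b hab R0 f hf => ?_⟩
  have h2pow := Nat.one_le_two_pow (n := T₀ + j)
  have hn1 : 1 ≤ n := by omega
  have hn0 : (0 : ℝ) < n := by exact_mod_cast hn1
  have hn6 : 2 / (n : ℝ) ≤ ε / 3 := by
    have h1 := Nat.le_ceil (6 / ε)
    have h2 : ((2 ^ (T₀ + j) + ⌈6 / ε⌉₊ + 1 : ℕ) : ℝ) ≤ n := by exact_mod_cast hn
    push_cast at h2
    have h3 : 6 / ε ≤ n := by
      have : (0 : ℝ) < 2 ^ (T₀ + j) := by positivity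
      linarith
    rw [div_le_iff₀ hε] at h3
    rw [div_le_iff₀ hn0]
    linarith
  set T := Nat.log 2 n with hT
  have hTn : 2 ^ T ≤ n := Nat.pow_log_le_self 2 (by omega)
  have hTn' : n < 2 ^ (T + 1) := Nat.lt_pow_succ_log_self (by norm_num) n
  have hT1 : T₀ + j ≤ T := by
    rw [hT]
    apply Nat.le_log_of_pow_le (by norm_num)
    omega
  set u := Nat.sqrt T with hu
  obtain ⟨hq1, hrT⟩ := hrate T (by omega)
  set T' := tq T with hT'
  have hsub : ({x ∈ Fintype.piFinset (fun i => Ioc (a i) (b i)) |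
      (2 : ℤ) ^ T' * R0 < Pol A l c x ∧ f (Pol A l c x + h) ≠ f (Pol A l c x)} : Finset (ι → ℤ)) ⊆
      ({x ∈ Fintype.piFinset (fun i => Ioc (a i) (b i)) | (2 : ℤ) ^ j ∣ Dl A l x p} : Finset (ι → ℤ)) ∪
      ({x ∈ Fintype.piFinset (fun i => Ioc (a i) (b i)) | ¬ (2 : ℤ) ^ j ∣ Dl A l x p ∧ surv 1 T' (0, h) (Pol A l c x)} : Finset (ι → ℤ)) := by
    intro x hx
    rw [mem_filter] at hx
    rw [mem_union, mem_filter, mem_filter]
    by_cases h1 : (2 : ℤ) ^ j ∣ Dl A l x p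
    · left; exact ⟨hx.1, h1⟩
    · right
      refine ⟨hx.1, h1, ?_⟩
      by_contra h2
      apply hx.2.2
      obtain ⟨t, ht, h3⟩ := coal (d := 1) (by norm_num) T' 0 h _ h2
      rw [pow_zero, one_mul, one_mul] at h3
      refine (hf.2 t _ _ h3 ?_ ?_).symm
      · intro i hi
        exact Pool.Agent.Y964.LW.Tz_iter_large (by norm_num) (hi.trans ht) hx.2.1
      · intro i hi
        exact Pool.Agent.Y964.LW.Tz_iter_large (by norm_num) (hi.trans ht) (lt_of_lt_of_le hx.2.1 (by omega))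
  have h1 := deriv_count A l hab hpr j
  have h2 := per_count A l c hab p (j := j) (T := T) (k := T') (by omega) (by omega) hTn' hTn (tq_le T)
    (surv 1 T' (0, h)) (fun y m => surv_periodic (by norm_num) T' (0, h) y m) (δ := q step (0, 0) T' (0, h)) (by
      rw [card_surv_d (by norm_num)]
      exact le_of_eq (mul_comm _ _))
  have h3 : q step (0, 0) T' (0, h) ≤ C * √ (1 + ((0 : ℕ) : ℝ) ^ 2 + u) * rho T' := by
    apply hq T' hq1 0 u h
    rw [← Int.cast_abs, abs_of_nonneg hh0]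
    exact_mod_cast hh
  have h5 : 4 * 4 ^ j * q step (0, 0) T' (0, h) ≤ ε / 3 := by
    calc 4 * 4 ^ j * q step (0, 0) T' (0, h) ≤ 4 * 4 ^ j * (C * √ (1 + ((0 : ℕ) : ℝ) ^ 2 + u) * rho T') := by gcongr
      _ = (4 * 4 ^ j * C) * (√ (1 + ((0 : ℕ) : ℝ) ^ 2 + u) * rho T') := by ring
      _ ≤ (4 * 4 ^ j * C) * (ε / 3 / (4 * 4 ^ j * C)) := by gcongr
      _ = ε / 3 := by field_simp
  have h6 : ((n : ℝ) / (2 ^ (j - v) : ℕ) + 2) * n ^ (Fintype.card ι - 1) ≤ (2 * ε / 3) * n ^ Fintype.card ι := by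
    have e : (n : ℝ) ^ Fintype.card ι = n * n ^ (Fintype.card ι - 1) := by
      rw [← pow_succ']; congr 1; omega
    rw [e, ← mul_assoc]
    apply mul_le_mul_of_nonneg_right _ (by positivity)
    have e2 : j - v = i + 1 := by omega
    rw [e2]
    have h7 : 1 / ((2 ^ (i + 1) : ℕ) : ℝ) ≤ ε / 3 := by
      rw [div_le_div_iff₀ (by positivity) (by norm_num)]
      rw [div_lt_iff₀ hε] at hi
      push_cast
      rw [pow_succ]
      nlinarith
    have h8 : 2 ≤ ε / 3 * n := by rwa [div_le_iff₀ hn0] at hn6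
    have h9 : (n : ℝ) / ((2 ^ (i + 1) : ℕ) : ℝ) = (1 / ((2 ^ (i + 1) : ℕ) : ℝ)) * n := by ring
    rw [h9]
    have h10 : 1 / ((2 ^ (i + 1) : ℕ) : ℝ) * n ≤ ε / 3 * n := by gcongr
    linarith
  calc _ ≤ (#{x ∈ Fintype.piFinset (fun i => Ioc (a i) (b i)) | (2 : ℤ) ^ j ∣ Dl A l x p} : ℝ) +
        #{x ∈ Fintype.piFinset (fun i => Ioc (a i) (b i)) | ¬ (2 : ℤ) ^ j ∣ Dl A l x p ∧ surv 1 T' (0, h) (Pol A l c x)} := by
        exact_mod_cast (card_le_card hsub).trans (card_union_le _ _)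
    _ ≤ (2 * ε / 3) * n ^ Fintype.card ι + ε / 3 * n ^ Fintype.card ι := by
        apply add_le_add
        · exact h1.trans h6
        · refine h2.trans ?_
          gcongr
    _ = _ := by ring

end Pool.Agent.Run7.h145.QX
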