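import Pool.Agent.Run7.h145.QX.A

/-! Values of quadratic polynomials: the main estimate for functions constant on the trajectories that
coalesce above a large height. -/

set_option autoImplicit false

namespace Pool.Agent.Run7.h145.QX

open Finset Pool.Agent.H499R2.CO Pool.Agent.Y967.CM Filter Topology Pool.Agent.Run7.h145.QP
  Pool.Agent.Run7.h145.QL

variable {ι : Type} [Fintype ι] [DecidableEq ι]

open Classical in
/-- THE MAIN ESTIMATE -/
theorem main_h (A : ι → ι → ℤ) {p q r t : ι} (hpq : p ≠ q)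
    (hrt : r ≠ t) (hdet : Sy A p r * Sy A q t - Sy A p t * Sy A q r ≠ 0) {B : ℝ} (hB : 0 < B) :
    ∃ E : ℕ, (∀ R : ℕ, ∀ (l : ι → ℤ) (c : ℤ) (a b : ι → ℤ), (∀ i, |(l i : ℝ)| ≤ B * R) → |(c : ℝ)| ≤ B * R ^ 2 →
      (∀ i, |a i| ≤ R) → (∀ i, |b i| ≤ R) →
      ∀ x ∈ Fintype.piFinset (fun i => Ioc (a i) (b i)), |Pol A l c x| ≤ E * (R : ℤ) ^ 2) ∧
    ∀ ε : ℝ, 0 < ε → ∃ μ : ℝ, 0 < μ ∧ ∃ R₁ : ℕ, ∀ R : ℕ, R₁ ≤ R →
      ∀ R0 : ℕ, (2 : ℝ) ^ tq (Nat.log 2 (2 * R)) * R0 ≤ μ * R ^ 2 → ∀ f ∈ SameH R0, (∀ y : ℕ, y ≤ E * R ^ 2 → |∑ m ∈ Icc 1 y, f ((m : ℕ) : ℤ)| ≤ μ * ((R ^ 2 : ℕ) : ℝ)) →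
      ∀ (l : ι → ℤ) (c : ℤ) (a b : ι → ℤ), (∀ i, |(l i : ℝ)| ≤ B * R) → |(c : ℝ)| ≤ B * R ^ 2 →
      (∀ i, |a i| ≤ R) → (∀ i, |b i| ≤ R) → ∀ u v : ℤ, 0 ≤ u →
      |∑ x ∈ Fintype.piFinset (fun i => Ioc (a i) (b i)), rs u v f (Pol A l c x)| ≤ ε * R ^ Fintype.card ι := by
  set k := Fintype.card ι with hk
  obtain ⟨E₀, hE⟩ := star_R A hpq hrt hdet hB
  set C0 : ℝ := sa A + k * B + B with hC0
  have hC00 : 0 < C0 := by positivity
  set E : ℕ := E₀ + ⌈C0⌉₊ with hEdef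
  refine ⟨E, ?_, fun ε hε => ?_⟩
  · intro R l c a b hl hc ha hb x hx
    have hxR : ∀ i, |x i| ≤ R := by
      intro i
      rw [Fintype.mem_piFinset] at hx
      have h1 := hx i
      rw [mem_Ioc] at h1
      have h2 := abs_le.1 (ha i)
      have h3 := abs_le.1 (hb i)
      rw [abs_le]; omega
    have h1 := Pol_le A hxR hl hc
    rw [← hk, ← hC0] at h1
    have h2 : |(Pol A l c x : ℝ)| ≤ (E : ℝ) * (R : ℝ) ^ 2 := by
      refine h1.trans ?_
      have h3 := Nat.le_ceil C0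
      have h4 : C0 ≤ E := by
        rw [hEdef]; push_cast
        have : (0 : ℝ) ≤ E₀ := Nat.cast_nonneg _
        linarith
      nlinarith [sq_nonneg (R : ℝ)]
    exact_mod_cast h2
  set ε₁ : ℝ := ε / (16 * 2 ^ k) with hε1
  have hε10 : 0 < ε₁ := by positivity
  obtain ⟨κ, hκ0, hκ1, R₂, h1⟩ := hE ε₁ hε10
  obtain ⟨r', hpr⟩ : ∃ r', Sy A p r' ≠ 0 := by
    by_contra h
    push Not at h
    apply hdet
    rw [h r, h t]; ring
  obtain ⟨n₁, hbad⟩ := bad_count_h A hpr hε10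
  refine ⟨ε₁ * κ / 2, by positivity, R₂ + n₁ + ⌈8 / (ε₁ * κ)⌉₊ + 1, fun R hR R0 hR0 f hf hav l c a b hl hc
    ha hb u v hu => ?_⟩
  obtain ⟨H, L, hH, hH1, hHn, hL1, hLn, hX, hst⟩ := h1 R (by omega) l c a b hl hc ha hb
  set n : ℕ := 2 * R with hn
  have hR1 : 1 ≤ R := by omega
  have hn1 : 1 ≤ n := by omega
  have hRr : (1 : ℝ) ≤ R := by exact_mod_cast hR1
  have hnr : (n : ℝ) = 2 * R := by rw [hn]; push_cast; ring
  have hn0 : (0 : ℝ) < n := by rw [hnr]; linarith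
  have hL0 : (0 : ℝ) < L := by exact_mod_cast hL1
  have hH0 : (0 : ℝ) < H := by exact_mod_cast hH1
  have hab : ∀ i, b i - a i ≤ n := by
    intro i
    have h1 := abs_le.1 (ha i)
    have h2 := abs_le.1 (hb i)
    rw [hn]; push_cast; omega
  -- the short windows
  set M : ℕ := 2 ^ tq (Nat.log 2 n) with hM
  set W : ℕ := M * R0 + H with hW
  have hW1 : 2 * (W : ℝ) ≤ ε₁ * L := by
    have h2 : ε₁ * (κ * (n : ℝ) ^ 2 / 2) ≤ ε₁ * L := mul_le_mul_of_nonneg_left hLn hε10.le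
    have h3 : 8 / (ε₁ * κ) ≤ R := by
      have h4 := Nat.le_ceil (8 / (ε₁ * κ))
      have h5 : ((R₂ + n₁ + ⌈8 / (ε₁ * κ)⌉₊ + 1 : ℕ) : ℝ) ≤ R := by exact_mod_cast hR
      push_cast at h5
      have p1 : (0 : ℝ) ≤ R₂ := Nat.cast_nonneg _
      have p2 : (0 : ℝ) ≤ n₁ := Nat.cast_nonneg _
      linarith
    rw [div_le_iff₀ (by positivity)] at h3
    have h4 : (M : ℝ) * R0 ≤ ε₁ * κ / 2 * R ^ 2 := by
      rw [hM]; push_cast; exact hR0
    have h5 : (W : ℝ) = M * R0 + H := by rw [hW]; push_cast; ring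
    have h6 : 8 * (R : ℝ) ≤ ε₁ * κ * R ^ 2 := by nlinarith
    rw [hnr] at hHn h2
    rw [h5]
    nlinarith
  have hwin := window_count A l c hab hH1 hL1 (show H ≤ W by omega) hε10 hW1 hst
  rw [← hk] at hwin
  -- merging
  have hm : ∀ h ∈ Icc 1 H, (#{x ∈ Fintype.piFinset (fun i => Ioc (a i) (b i)) |
      rs u v f (Pol A l c x + (h : ℕ)) ≠ rs u v f (Pol A l c x)} : ℝ) ≤ 7 * ε₁ * n ^ k := by
    intro h hh
    rw [mem_Icc] at hh
    have hhH : (h : ℤ) ≤ H := by exact_mod_cast hh.2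
    have h1 := hbad n (by omega) (h : ℤ) (by positivity) (by
      rw [hH] at hhH
      exact_mod_cast hhH) l c a b hab R0 f hf
    have hMz : ((M : ℕ) : ℤ) = 2 ^ tq (Nat.log 2 n) := by rw [hM]; push_cast; rfl
    rw [← hMz] at h1
    rw [← hk] at h1
    -- windows at `u`, `v`, and the small values are in the window at `n R0`
    have hsub : ({x ∈ Fintype.piFinset (fun i => Ioc (a i) (b i)) |
        rs u v f (Pol A l c x + (h : ℕ)) ≠ rs u v f (Pol A l c x)} : Finset (ι → ℤ)) ⊆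
        (({x ∈ Fintype.piFinset (fun i => Ioc (a i) (b i)) |
            (M : ℤ) * R0 < Pol A l c x ∧ f (Pol A l c x + (h : ℤ)) ≠ f (Pol A l c x)} ∪
        {x ∈ Fintype.piFinset (fun i => Ioc (a i) (b i)) | (M : ℤ) * R0 - W < Pol A l c x ∧ Pol A l c x ≤ (M : ℤ) * R0}) ∪
        {x ∈ Fintype.piFinset (fun i => Ioc (a i) (b i)) | u - W < Pol A l c x ∧ Pol A l c x ≤ u}) ∪
        {x ∈ Fintype.piFinset (fun i => Ioc (a i) (b i)) | v - W < Pol A l c x ∧ Pol A l c x ≤ v} := by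
      intro x hx
      rw [mem_filter] at hx
      rw [mem_union, mem_union, mem_union, mem_filter, mem_filter, mem_filter, mem_filter]
      by_contra hcon
      push Not at hcon
      obtain ⟨⟨⟨c1, c4⟩, c2⟩, c3⟩ := hcon
      apply hx.2
      have c1' := c1 hx.1
      have c2' := c2 hx.1
      have c3' := c3 hx.1
      have c4' := c4 hx.1
      have hh1 : (1 : ℤ) ≤ h := by exact_mod_cast hh.1
      have hWH : (W : ℤ) = M * R0 + H := by rw [hW]; push_cast; ring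
      have hnR0 : (0 : ℤ) ≤ (M : ℤ) * R0 := by positivity
      have e1 : (u < Pol A l c x + (h : ℤ) ∧ Pol A l c x + (h : ℤ) ≤ v) ↔ (u < Pol A l c x ∧ Pol A l c x ≤ v) := by
        constructor
        · rintro ⟨q1, q2⟩
          refine ⟨?_, by omega⟩
          by_contra h'
          have := c2' (by omega)
          omega
        · rintro ⟨q1, q2⟩
          refine ⟨by omega, ?_⟩
          by_contra h'
          have := c3' (by omega)
          omega
      unfold rs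
      by_cases h' : u < Pol A l c x ∧ Pol A l c x ≤ v
      · rw [if_pos h', if_pos (e1.2 h')]
        have hbig : (M : ℤ) * R0 < Pol A l c x := by
          by_contra h''
          have := c4' (by omega)
          omega
        exact c1' hbig
      · rw [if_neg h', if_neg (fun h'' => h' (e1.1 h''))]
    have h2 := hwin u
    have h3 := hwin v
    have h4 := hwin ((M : ℤ) * R0)
    have hcard : (#{x ∈ Fintype.piFinset (fun i => Ioc (a i) (b i)) |
        rs u v f (Pol A l c x + (h : ℕ)) ≠ rs u v f (Pol A l c x)} : ℝ) ≤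
        ((#{x ∈ Fintype.piFinset (fun i => Ioc (a i) (b i)) |
            (M : ℤ) * R0 < Pol A l c x ∧ f (Pol A l c x + (h : ℤ)) ≠ f (Pol A l c x)} : ℝ) +
        #{x ∈ Fintype.piFinset (fun i => Ioc (a i) (b i)) | (M : ℤ) * R0 - W < Pol A l c x ∧ Pol A l c x ≤ (M : ℤ) * R0} +
        #{x ∈ Fintype.piFinset (fun i => Ioc (a i) (b i)) | u - W < Pol A l c x ∧ Pol A l c x ≤ u}) +
        #{x ∈ Fintype.piFinset (fun i => Ioc (a i) (b i)) | v - W < Pol A l c x ∧ Pol A l c x ≤ v} := by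
      exact_mod_cast (card_le_card hsub).trans ((card_union_le _ _).trans
            (Nat.add_le_add_right ((card_union_le _ _).trans (Nat.add_le_add_right (card_union_le _ _) _)) _))
    have hnn : 0 ≤ ε₁ * (n : ℝ) ^ k := by positivity
    linarith
  have hrs : ∀ m, |rs u v f m| ≤ 1 := fun m => rs_le (hf.1) m
  have m1 := merge_avg A l c hH1 hrs hm
  have m2 := hst (rs u v f) hrs
  rw [← hk] at m2
  set Bx := Fintype.piFinset (fun i => Ioc (a i) (b i)) with hBx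
  have e1 : ∑ x ∈ Bx, ∑ h ∈ Icc 1 H, ∑ j ∈ Icc 1 L,
        (1 / ((H : ℝ) * L)) * (rs u v f (Pol A l c x + h) - rs u v f (Pol A l c x + h + j)) =
      (1 / (H : ℝ)) * ∑ x ∈ Bx, ∑ h ∈ Icc 1 H, rs u v f (Pol A l c x + (h : ℕ)) -
        ∑ x ∈ Bx, (1 / ((H : ℝ) * L)) * ∑ h ∈ Icc 1 H, ∑ j ∈ Icc 1 L, rs u v f (Pol A l c x + (h : ℕ) + (j : ℕ)) := by
    rw [mul_sum, ← sum_sub_distrib]
    refine sum_congr rfl fun x _ => ?_
    rw [mul_sum, mul_sum, ← sum_sub_distrib]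
    refine sum_congr rfl fun h _ => ?_
    rw [← mul_sum, sum_sub_distrib, sum_const, Nat.card_Icc, nsmul_eq_mul, Nat.add_sub_cancel, mul_sub]
    congr 1
    field_simp
  have hcardB : (#Bx : ℝ) ≤ n ^ k := by
    rw [hBx, Fintype.card_piFinset]
    push_cast
    calc ∏ i, ((#(Ioc (a i) (b i)) : ℕ) : ℝ) ≤ ∏ _i : ι, (n : ℝ) := by
          apply prod_le_prod (fun i _ => Nat.cast_nonneg _)
          intro i _
          rw [Int.card_Ioc]
          have := hab i
          have h : (b i - a i).toNat ≤ n := by omega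
          exact_mod_cast h
      _ = _ := by rw [prod_const, card_univ]
  have m3 : |∑ x ∈ Bx, (1 / ((H : ℝ) * L)) * ∑ h ∈ Icc 1 H, ∑ j ∈ Icc 1 L, rs u v f (Pol A l c x + (h : ℕ) + (j : ℕ))| ≤
      ε₁ * n ^ k := by
    have h3 : ∀ x ∈ Bx, |(1 / ((H : ℝ) * L)) * ∑ h ∈ Icc 1 H, ∑ j ∈ Icc 1 L, rs u v f (Pol A l c x + (h : ℕ) + (j : ℕ))| ≤ ε₁ := by
      intro x hx
      have hPx := hX x hx
      have h4 : ∀ h ∈ Icc 1 H, |∑ j ∈ Icc 1 L, rs u v f (Pol A l c x + (h : ℕ) + (j : ℕ))| ≤ 2 * (ε₁ * κ / 2 * (R : ℝ) ^ 2) := by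
        intro h hh
        rw [mem_Icc] at hh
        rw [sum_shift, sum_rs]
        have hhH : (h : ℤ) ≤ H := by exact_mod_cast hh.2
        have hh1 : (1 : ℤ) ≤ h := by exact_mod_cast hh.1
        have q1 := neg_abs_le (Pol A l c x)
        have q2 := le_abs_self (Pol A l c x)
        set y := max (Pol A l c x + (h : ℤ)) u with hy
        set z := min (Pol A l c x + (h : ℤ) + L) v with hz
        rcases le_total z y with hzy | hzy
        · rw [Ioc_eq_empty (by omega), sum_empty, abs_zero]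
          positivity
        · have hy0 : 0 ≤ y := by omega
          have hzE : z ≤ E * (R : ℤ) ^ 2 := by
            have h5 : (E₀ : ℤ) * (R : ℤ) ^ 2 ≤ E * (R : ℤ) ^ 2 := by
              apply mul_le_mul_of_nonneg_right _ (by positivity)
              rw [hEdef]; push_cast
              have : (0 : ℤ) ≤ (⌈C0⌉₊ : ℤ) := Int.natCast_nonneg _
              omega
            omega
          rw [sum_Ioc_nat f hy0 hzy]
          have hb : ∀ w : ℤ, 0 ≤ w → w ≤ z → |∑ m ∈ Icc 1 w.toNat, f ((m : ℕ) : ℤ)| ≤ ε₁ * κ / 2 * (R : ℝ) ^ 2 := by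
            intro w hw0 hwz
            have h5 := hav w.toNat (by
              have h6 : ((w.toNat : ℕ) : ℤ) ≤ ((E * R ^ 2 : ℕ) : ℤ) := by
                rw [Int.toNat_of_nonneg hw0]; push_cast; omega
              exact_mod_cast h6)
            push_cast at h5
            exact h5
          have h7 := hb z (hy0.trans hzy) le_rfl
          have h8 := hb y hy0 hzy
          refine (abs_sub _ _).trans ?_
          linarith
      rw [abs_mul, abs_of_pos (by positivity : 0 < 1 / ((H : ℝ) * L))]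
      calc (1 / ((H : ℝ) * L)) * |∑ h ∈ Icc 1 H, ∑ j ∈ Icc 1 L, rs u v f (Pol A l c x + (h : ℕ) + (j : ℕ))| ≤
          (1 / ((H : ℝ) * L)) * ∑ h ∈ Icc 1 H, (2 * (ε₁ * κ / 2 * (R : ℝ) ^ 2)) := by
            apply mul_le_mul_of_nonneg_left _ (by positivity)
            exact (abs_sum_le_sum_abs _ _).trans (sum_le_sum h4)
        _ = 2 * (ε₁ * κ / 2 * (R : ℝ) ^ 2) / L := by
            rw [sum_const, Nat.card_Icc, nsmul_eq_mul, Nat.add_sub_cancel]
            field_simp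
        _ ≤ ε₁ := by
            rw [div_le_iff₀ hL0]
            have h5 : ε₁ * (κ * (n : ℝ) ^ 2 / 2) ≤ ε₁ * L := mul_le_mul_of_nonneg_left hLn hε10.le
            rw [hnr] at h5
            nlinarith
    calc _ ≤ ∑ x ∈ Bx, ε₁ := (abs_sum_le_sum_abs _ _).trans (sum_le_sum h3)
      _ = #Bx * ε₁ := by rw [sum_const, nsmul_eq_mul]
      _ ≤ n ^ k * ε₁ := by gcongr
      _ = _ := by ring
  rw [e1] at m2
  have htot : |∑ x ∈ Bx, rs u v f (Pol A l c x)| ≤ 16 * ε₁ * n ^ k := by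
    rw [abs_le] at m1 m2 m3 ⊢
    constructor <;> linarith [m1.1, m1.2, m2.1, m2.2, m3.1, m3.2]
  refine htot.trans (le_of_eq ?_)
  rw [hnr, mul_pow, hε1]
  field_simp

end Pool.Agent.Run7.h145.QX
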