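import Pool.Agent.Run7.h145.QX.B

/-! Values of quadratic polynomials: late parts of the trajectories. -/

set_option autoImplicit false

namespace Pool.Agent.Run7.h145.QX

open Finset Filter Topology
open Pool.Agent.H499R2.ND
open Pool.Agent.H319R2.Lln (mu)

/-- the trajectory reaches a value `≤ y`, and does not exceed `V` between a value `≤ R0` and this time -/
def GG (R0 V y n : ℕ) : Prop := ∃ t, Tn^[t] n ≤ y ∧ ∀ i j, i ≤ j → j ≤ t → Tn^[i] n ≤ R0 → Tn^[j] n ≤ V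

theorem GG_shift {R0 V y : ℕ} (hy : y ≤ R0) {n s : ℕ} (h : ∀ i ≤ s, R0 < Tn^[i] n) :
    GG R0 V y n ↔ GG R0 V y (Tn^[s] n) := by
  constructor
  · rintro ⟨t, ht, hG⟩
    have hst : s < t := by
      by_contra hc
      have := h t (by omega)
      omega
    obtain ⟨d, rfl⟩ : ∃ d, t = d + s := ⟨t - s, by omega⟩
    refine ⟨d, by rw [← Function.iterate_add_apply]; exact ht, fun i j hij hjt hi => ?_⟩
    rw [← Function.iterate_add_apply] at hi ⊢
    exact hG (i + s) (j + s) (by omega) (by omega) hi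
  · rintro ⟨t, ht, hG⟩
    refine ⟨t + s, by rw [Function.iterate_add_apply]; exact ht, fun i j hij hjt hi => ?_⟩
    have his : s < i := by
      by_contra hc
      have := h i (by omega)
      omega
    have h1 := hG (i - s) (j - s) (by omega) (by omega) (by
      rw [← Function.iterate_add_apply, show i - s + s = i by omega]; exact hi)
    rwa [← Function.iterate_add_apply, show j - s + s = j by omega] at h1

/-- the exponent -/
def JJ (R : ℕ) : ℕ := Nat.log 2 (2 * R) / 48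

/-- the height -/
def HH (R : ℕ) : ℕ := R ^ 2 / 4 ^ JJ R

theorem GG_dens {μ : ℝ} (hμ : 0 < μ) {E : ℕ} (hE : 1 ≤ E) : ∃ y R₁ : ℕ, ∀ R : ℕ, R₁ ≤ R →
    cnt (fun n => ¬ GG (HH R) (HH R * 2 ^ JJ R) y n) (E * R ^ 2) ≤ μ * R ^ 2 := by
  have hmu := mu_pos'
  have hEr : (0 : ℝ) < E := by exact_mod_cast hE
  obtain ⟨y, hy⟩ := hit (κ := 2 / Real.log (4 / 3) + 1) (by linarith) (ε := μ / (2 * E)) (by positivity)
  have h1 := zd_iff.1 (full_zd (ε := 1 / 400) (by positivity) (fun a => a ≤ y)) (μ / (2 * E)) (by positivity)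
  obtain ⟨N₀, hN₀⟩ := eventually_atTop.1 (hy.and h1)
  refine ⟨y, N₀ + 2 ^ (100 + E) + 1, fun R hR => ?_⟩
  have h2pow := Nat.one_le_two_pow (n := 100 + E)
  have hR1 : 1 ≤ R := by omega
  have hRr : (1 : ℝ) ≤ R := by exact_mod_cast hR1
  set N : ℕ := E * R ^ 2 with hN
  have hRN : R ≤ N := by
    rw [hN]
    calc R ≤ R * R := Nat.le_mul_self R
      _ = 1 * R ^ 2 := by ring
      _ ≤ E * R ^ 2 := Nat.mul_le_mul_right _ hE
  obtain ⟨h3, h4⟩ := hN₀ N (le_trans (by omega) hRN)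
  set T := Nat.log 2 (2 * R) with hT
  have hT2 : 2 * R < 2 ^ (T + 1) := Nat.lt_pow_succ_log_self (by norm_num) _
  have hTR : R < 2 ^ T := by rw [pow_succ] at hT2; omega
  have hTE : 100 + E ≤ T := by
    rw [hT]
    apply Nat.le_log_of_pow_le (by norm_num)
    omega
  set J := JJ R with hJ
  have hJT : J = T / 48 := rfl
  have hlog2 : 0 < Real.log 2 := Real.log_pos (by norm_num)
  have hlogN : Real.log N ≤ (E + 2 * T) * Real.log 2 := by
    have h5 : (N : ℝ) ≤ 2 ^ (E + 2 * T) := by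
      have h6 : N ≤ 2 ^ (E + 2 * T) := by
        rw [hN, pow_add, pow_mul']
        exact Nat.mul_le_mul (Nat.lt_two_pow_self).le (Nat.pow_le_pow_left hTR.le 2)
      exact_mod_cast h6
    calc Real.log N ≤ Real.log (2 ^ (E + 2 * T)) := Real.log_le_log (by exact_mod_cast (by omega : 0 < N)) h5
      _ = _ := by rw [Real.log_pow]; push_cast; ring
  have hJbig : 2 * (1 / 400 : ℝ) * ((E + 2 * T) * Real.log 2) ≤ J * Real.log 2 := by
    have h5 : (E : ℝ) + 2 * T ≤ 200 * J := by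
      have : E + 2 * T ≤ 200 * J := by omega
      exact_mod_cast this
    nlinarith
  have hsplit : cnt (fun n => ¬ GG (HH R) (HH R * 2 ^ J) y n) N ≤
      cnt (fun n => ∀ j : ℕ, (j : ℝ) ≤ (2 / Real.log (4 / 3) + 1) * Real.log n → y < Tn^[j] n) N
      + cnt (fun n : ℕ => (∃ k, Tn^[k] n ≤ y) ∧ ¬ ∃ t : ℕ, Tn^[t] n ≤ y ∧ (∀ j < t, ¬ Tn^[j] n ≤ y) ∧
      ∀ j ≤ t, |Real.log ((Tn^[j] n : ℕ) : ℝ) - Real.log n + mu * j| ≤ 1 / 400 * Real.log n) N := by
    refine cnt_or N fun n hn hnN hp => ?_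
    by_contra hcon
    push Not at hcon
    obtain ⟨⟨j, _, hj⟩, hcon1⟩ := hcon
    obtain ⟨t, ht, _, hprof⟩ := hcon1 ⟨j, hj⟩
    apply hp
    refine ⟨t, ht, fun i j hij hjt hi => ?_⟩
    have hnr : (1 : ℝ) ≤ n := by exact_mod_cast hn
    have hlogn : Real.log n ≤ Real.log N := Real.log_le_log (by linarith) (by exact_mod_cast hnN)
    have hi1 : 1 ≤ Tn^[i] n := Tn_iter_pos hn i
    have hj1 : 1 ≤ Tn^[j] n := Tn_iter_pos hn j
    have q1 := (abs_le.1 (hprof i (hij.trans hjt))).1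
    have q2 := (abs_le.1 (hprof j hjt)).2
    have q3 : mu * i ≤ mu * j := mul_le_mul_of_nonneg_left (by exact_mod_cast hij) hmu.le
    have q4 : Real.log ((Tn^[i] n : ℕ) : ℝ) ≤ Real.log (HH R : ℕ) :=
      Real.log_le_log (by exact_mod_cast hi1) (by exact_mod_cast hi)
    have hH1 : (0 : ℝ) < (HH R : ℕ) := by exact_mod_cast (by omega : 0 < HH R)
    have q5 : Real.log ((Tn^[j] n : ℕ) : ℝ) ≤ Real.log ((HH R : ℕ) * 2 ^ J : ℝ) := by
      rw [Real.log_mul hH1.ne' (by positivity), Real.log_pow]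
      linarith
    have q6 : ((Tn^[j] n : ℕ) : ℝ) ≤ (HH R : ℕ) * 2 ^ J :=
      (Real.log_le_log_iff (by exact_mod_cast hj1) (by positivity)).1 q5
    exact_mod_cast q6
  have e : μ / (2 * E) * (N : ℝ) = μ * R ^ 2 / 2 := by
    rw [hN]; push_cast; field_simp
  rw [e] at h3 h4
  linarith

theorem tq_small {μ : ℝ} (hμ : 0 < μ) : ∃ T₀ : ℕ, ∀ T : ℕ, T₀ ≤ T → (2 : ℝ) ^ tq T ≤ μ * 4 ^ (T / 48) := by
  obtain ⟨m, hm⟩ := pow_unbounded_of_one_lt (1 / μ) (show (1 : ℝ) < 2 by norm_num)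
  refine ⟨48 ^ 4 + 94 + 48 * m, fun T hT => ?_⟩
  set u := Nat.sqrt T with hu
  set v := Nat.sqrt u with hv
  have hu1 : 48 ^ 2 ≤ u := by
    rw [hu]; apply Nat.le_sqrt'.2
    omega
  have hv1 : 48 ≤ v := by rw [hv]; exact Nat.le_sqrt'.2 hu1
  have h1 : 48 * tq T ≤ T := by
    calc 48 * tq T ≤ v * tq T := Nat.mul_le_mul_right _ hv1
      _ = u * (v * v) := by unfold tq; ring
      _ ≤ u * u := Nat.mul_le_mul_left _ (Nat.sqrt_le u)
      _ ≤ T := Nat.sqrt_le T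
  have h2 : tq T + m ≤ 2 * (T / 48) := by omega
  have h3 : (2 : ℝ) ^ (tq T + m) ≤ 2 ^ (2 * (T / 48)) := pow_le_pow_right₀ (by norm_num) h2
  rw [pow_add, pow_mul, show (2 : ℝ) ^ 2 = 4 by norm_num] at h3
  have h4 : 1 ≤ μ * 2 ^ m := by
    rw [div_lt_iff₀ hμ] at hm
    linarith
  calc (2 : ℝ) ^ tq T = 2 ^ tq T * 1 := by ring
    _ ≤ 2 ^ tq T * (μ * 2 ^ m) := by gcongr
    _ = μ * (2 ^ tq T * 2 ^ m) := by ring
    _ ≤ μ * 4 ^ (T / 48) := by gcongr

theorem Tz_cast (k n : ℕ) : (Pool.Agent.H499R2.CO.Tz 1)^[k] (n : ℤ) = ((Tn^[k] n : ℕ) : ℤ) := Td_iter_cast k n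

open Classical in
/-- the indicator function of the failure -/
noncomputable def fG (R0 V y : ℕ) (z : ℤ) : ℝ := if 0 < z ∧ ¬ GG R0 V y z.toNat then 1 else 0

theorem fG_same {R0 V y : ℕ} (hy : y ≤ R0) : fG R0 V y ∈ SameH R0 := by
  classical
  refine ⟨fun x => ?_, fun t x z h hx hz => ?_⟩
  · unfold fG; split_ifs <;> norm_num
  · have hx0 : 0 < x := lt_of_le_of_lt (Int.natCast_nonneg _) (hx 0 (by omega))
    have hz0 : 0 < z := lt_of_le_of_lt (Int.natCast_nonneg _) (hz 0 (by omega))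
    lift x to ℕ using hx0.le
    lift z to ℕ using hz0.le
    simp only [Tz_cast] at h hx hz
    have hx' : ∀ i ≤ t, R0 < Tn^[i] x := fun i hi => by exact_mod_cast hx i hi
    have hz' : ∀ i ≤ t, R0 < Tn^[i] z := fun i hi => by exact_mod_cast hz i hi
    have h' : Tn^[t] x = Tn^[t] z := by exact_mod_cast h
    have e : GG R0 V y x ↔ GG R0 V y z := by
      rw [GG_shift hy hx', GG_shift hy hz', h']
    unfold fG
    simp only [Int.toNat_natCast, e, hx0, hz0]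

open Pool.Agent.Run7.h145.QP Pool.Agent.Run7.h145.QL

variable {ι : Type} [Fintype ι] [DecidableEq ι]

open Classical in
/-- FEW FAILURES -/
theorem few_GG (A : ι → ι → ℤ) {p q r t : ι} (hpq : p ≠ q) (hrt : r ≠ t)
    (hdet : Sy A p r * Sy A q t - Sy A p t * Sy A q r ≠ 0) {B ε : ℝ} (hB : 0 < B) (hε : 0 < ε) :
    ∃ E : ℕ, ∃ y R₁ : ℕ, ∀ R : ℕ, R₁ ≤ R → y ≤ HH R ∧
      ∀ (l : ι → ℤ) (c : ℤ) (a b : ι → ℤ), (∀ i, |(l i : ℝ)| ≤ B * R) → |(c : ℝ)| ≤ B * R ^ 2 →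
      (∀ i, |a i| ≤ R) → (∀ i, |b i| ≤ R) →
      (∀ x ∈ Fintype.piFinset (fun i => Ioc (a i) (b i)), |Pol A l c x| ≤ E * (R : ℤ) ^ 2) ∧
      (#{x ∈ Fintype.piFinset (fun i => Ioc (a i) (b i)) |
        0 < Pol A l c x ∧ ¬ GG (HH R) (HH R * 2 ^ JJ R) y (Pol A l c x).toNat} : ℝ) ≤ ε * R ^ Fintype.card ι := by
  obtain ⟨E, hE, hmain⟩ := main_h A hpq hrt hdet hB
  obtain ⟨μ, hμ, R₂, h1⟩ := hmain ε hε
  obtain ⟨y, R₃, h2⟩ := GG_dens hμ (E := E + 1) (by omega)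
  obtain ⟨T₀, h3⟩ := tq_small hμ
  refine ⟨E, y, R₂ + R₃ + 2 ^ T₀ + 2 * y + 2, fun R hR => ?_⟩
  have h2pow := Nat.one_le_two_pow (n := T₀)
  have hR1 : 1 ≤ R := by omega
  have hRr : (1 : ℝ) ≤ R := by exact_mod_cast hR1
  set T := Nat.log 2 (2 * R) with hT
  have hTT : T₀ ≤ T := by
    rw [hT]
    apply Nat.le_log_of_pow_le (by norm_num)
    omega
  have hT2 : 2 ^ T ≤ 2 * R := Nat.pow_log_le_self 2 (by omega)
  have h4J : 4 ^ JJ R ≤ 2 * R := by
    have e : (4 : ℕ) ^ JJ R = 2 ^ (2 * JJ R) := by rw [pow_mul]; norm_num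
    rw [e]
    refine le_trans (Nat.pow_le_pow_right (by norm_num) ?_) hT2
    have : JJ R = T / 48 := rfl
    omega
  have hyH : y ≤ HH R := by
    unfold HH
    rw [Nat.le_div_iff_mul_le (by positivity)]
    calc y * 4 ^ JJ R ≤ y * (2 * R) := Nat.mul_le_mul_left _ h4J
      _ = 2 * y * R := by ring
      _ ≤ R * R := Nat.mul_le_mul_right _ (by omega)
      _ = R ^ 2 := by ring
  refine ⟨hyH, fun l c a b hl hc ha hb => ⟨fun x hx => hE R l c a b hl hc ha hb x hx, ?_⟩⟩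
  have hR0 : (2 : ℝ) ^ tq (Nat.log 2 (2 * R)) * (HH R : ℕ) ≤ μ * R ^ 2 := by
    have h4 := h3 T hTT
    have h5 : ((HH R : ℕ) : ℝ) * 4 ^ (T / 48) ≤ R ^ 2 := by
      have : HH R * 4 ^ (T / 48) ≤ R ^ 2 := Nat.div_mul_le_self _ _
      exact_mod_cast this
    have h6 : (0 : ℝ) ≤ (HH R : ℕ) := Nat.cast_nonneg _
    calc (2 : ℝ) ^ tq T * (HH R : ℕ) ≤ (μ * 4 ^ (T / 48)) * (HH R : ℕ) := by gcongr
      _ = μ * ((HH R : ℕ) * 4 ^ (T / 48)) := by ring
      _ ≤ μ * R ^ 2 := by gcongr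
  have h4 := h1 R (by omega) (HH R) hR0 (fG (HH R) (HH R * 2 ^ JJ R) y) (fG_same hyH) (by
    intro y' hy'
    have h5 := h2 R (by omega)
    have h6 : ∑ m ∈ Icc 1 y', fG (HH R) (HH R * 2 ^ JJ R) y ((m : ℕ) : ℤ) ≤
        cnt (fun n => ¬ GG (HH R) (HH R * 2 ^ JJ R) y n) ((E + 1) * R ^ 2) := by
      rw [cnt_eq, card_filter]
      push_cast
      calc ∑ m ∈ Icc 1 y', fG (HH R) (HH R * 2 ^ JJ R) y ((m : ℕ) : ℤ) ≤
          ∑ m ∈ Icc 1 y', (if ¬ GG (HH R) (HH R * 2 ^ JJ R) y m then (1 : ℝ) else 0) := by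
            apply sum_le_sum
            intro m _
            unfold fG
            rw [Int.toNat_natCast]
            by_cases g : ¬ GG (HH R) (HH R * 2 ^ JJ R) y m
            · rw [if_pos g]; split_ifs <;> norm_num
            · rw [if_neg g, if_neg (fun g' => g g'.2)]
        _ ≤ _ := by
            apply sum_le_sum_of_subset_of_nonneg
            · apply Icc_subset_Icc le_rfl
              refine hy'.trans ?_
              exact Nat.mul_le_mul_right _ (by omega)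
            · intro m _ _
              split_ifs <;> norm_num
    have h7 : 0 ≤ ∑ m ∈ Icc 1 y', fG (HH R) (HH R * 2 ^ JJ R) y ((m : ℕ) : ℤ) := by
      apply sum_nonneg
      intro m _
      unfold fG; split_ifs <;> norm_num
    rw [abs_of_nonneg h7]
    push_cast
    exact h6.trans h5) l c a b hl hc ha hb 0 (E * (R : ℤ) ^ 2) le_rfl
  refine le_trans (le_of_eq ?_) ((le_abs_self _).trans h4)
  rw [card_filter]
  push_cast
  apply sum_congr rfl
  intro x hx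
  have h5 := (abs_le.1 (hE R l c a b hl hc ha hb x hx)).2
  unfold rs fG
  by_cases g : 0 < Pol A l c x
  · rw [if_pos (show 0 < Pol A l c x ∧ Pol A l c x ≤ E * (R : ℤ) ^ 2 from ⟨g, h5⟩)]
  · rw [if_neg (show ¬ (0 < Pol A l c x ∧ Pol A l c x ≤ E * (R : ℤ) ^ 2) from fun g' => g g'.1),
      if_neg (fun g' => g g'.1)]

end Pool.Agent.Run7.h145.QX
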