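import Pool.Agent.Run7.h145.QX.C

/-! Values of quadratic polynomials: the first steps of the trajectories. -/

set_option autoImplicit false

namespace Pool.Agent.Run7.h145.QX

open Finset Filter Topology
open Pool.Agent.H499R2.ND
open Pool.Agent.Helper894.Collatz (od er)

theorem one_le_w {k o : ℕ} (h : 4 * k ≤ 7 * o) : (1 : ℝ) ≤ (3 / 2) ^ o * (496 / 625) ^ k := by
  by_contra hc
  push Not at hc
  have h1 : ((3 / 2 : ℝ) ^ o * (496 / 625) ^ k) ^ 7 < 1 := pow_lt_one₀ (by positivity) hc (by norm_num)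
  have h2 : ((3 / 2 : ℝ) ^ o * (496 / 625) ^ k) ^ 7 = (3 / 2 : ℝ) ^ (7 * o) * ((496 / 625) ^ 7) ^ k := by
    rw [mul_pow, ← pow_mul, ← pow_mul, ← pow_mul, mul_comm o 7, mul_comm k 7]
  have h3 : (3 / 2 : ℝ) ^ (4 * k) ≤ (3 / 2 : ℝ) ^ (7 * o) := pow_le_pow_right₀ (by norm_num) h
  have h4 : (1 : ℝ) ≤ (3 / 2 : ℝ) ^ (4 * k) * ((496 / 625) ^ 7) ^ k := by
    rw [pow_mul, ← mul_pow]
    apply one_le_pow₀
    norm_num
  have h5 : (3 / 2 : ℝ) ^ (4 * k) * ((496 / 625) ^ 7) ^ k ≤ (3 / 2 : ℝ) ^ (7 * o) * ((496 / 625) ^ 7) ^ k := by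
    gcongr
  linarith

theorem card_bad (k : ℕ) : (#{r ∈ range (2 ^ k) | 4 * k ≤ 7 * od k r} : ℝ) ≤ (124 / 125) ^ k * 2 ^ k := by
  have h1 := Pool.Agent.Helper894.Collatz.sum_pow_od k (3 / 2)
  calc (#{r ∈ range (2 ^ k) | 4 * k ≤ 7 * od k r} : ℝ) = ∑ r ∈ range (2 ^ k), (if 4 * k ≤ 7 * od k r then (1 : ℝ) else 0) := by
        rw [card_filter]; push_cast; rfl
    _ ≤ ∑ r ∈ range (2 ^ k), (3 / 2 : ℝ) ^ od k r * (496 / 625) ^ k := by
        apply sum_le_sum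
        intro r _
        split_ifs with h
        · exact one_le_w h
        · positivity
    _ = (124 / 125) ^ k * 2 ^ k := by
        rw [← sum_mul, h1, ← mul_pow, ← mul_pow]
        norm_num

/-- the bad residue classes -/
def PB (k : ℕ) (z : ℤ) : Prop := 4 * k ≤ 7 * od k (z % 2 ^ k).toNat

theorem mod_toNat {z : ℤ} (hz : 0 < z) (k : ℕ) : (z % 2 ^ k).toNat = z.toNat % 2 ^ k := by
  lift z to ℕ using hz.le
  have : ((z : ℕ) : ℤ) % 2 ^ k = ((z % 2 ^ k : ℕ) : ℤ) := by push_cast; rfl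
  rw [this, Int.toNat_natCast, Int.toNat_natCast]

theorem PB_iff {z : ℤ} (hz : 0 < z) (k : ℕ) : PB k z ↔ 4 * k ≤ 7 * od k z.toNat := by
  unfold PB
  rw [mod_toNat hz, od_mod k _ le_rfl]

theorem PB_per (k : ℕ) (y m : ℤ) : PB k (y + m * 2 ^ k) ↔ PB k y := by
  unfold PB
  rw [Int.add_mul_emod_self_right]

open Classical in
theorem PB_card (k : ℕ) : (#{c ∈ range (2 ^ k) | PB k ((c : ℕ) : ℤ)} : ℝ) ≤ (124 / 125) ^ k * 2 ^ k := by
  refine le_trans (le_of_eq ?_) (card_bad k)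
  congr 2
  apply filter_congr
  intro c hc
  rw [mem_range] at hc
  unfold PB
  have e : (((c : ℕ) : ℤ) % 2 ^ k).toNat = c := by
    have : ((c : ℕ) : ℤ) % 2 ^ k = ((c % 2 ^ k : ℕ) : ℤ) := by push_cast; rfl
    rw [this, Int.toNat_natCast, Nat.mod_eq_of_lt hc]
  rw [e]

open Pool.Agent.Run7.h145.QP Pool.Agent.Run7.h145.QL

variable {ι : Type} [Fintype ι] [DecidableEq ι]

open Classical in
/-- FEW TRAJECTORIES WITH A LARGE TERM AMONG THE FIRST ONES -/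
theorem few_first (A : ι → ι → ℤ) {p r : ι} (hpr : Sy A p r ≠ 0) {ε : ℝ} (hε : 0 < ε) :
    ∃ K₀ R₁ : ℕ, ∀ R : ℕ, R₁ ≤ R →
      ∀ (l : ι → ℤ) (c : ℤ) (a b : ι → ℤ), (∀ i, |a i| ≤ R) → (∀ i, |b i| ≤ R) →
      (#{x ∈ Fintype.piFinset (fun i => Ioc (a i) (b i)) |
        0 < Pol A l c x ∧ ∃ k, K₀ ≤ k ∧ k ≤ Nat.log 2 (2 * R) ∧ 4 * k ≤ 7 * od k (Pol A l c x).toNat} : ℝ) ≤
        ε * R ^ Fintype.card ι := by
  set v := (Sy A p r).natAbs with hv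
  set d := Fintype.card ι with hd
  have hι : 1 ≤ Fintype.card ι := Fintype.card_pos_iff.2 ⟨p⟩
  set ε₁ : ℝ := ε / 2 ^ d with hε1
  have hε10 : 0 < ε₁ := by positivity
  obtain ⟨i, hi⟩ : ∃ i : ℕ, 3 / ε₁ < 2 ^ i := pow_unbounded_of_one_lt _ (by norm_num)
  set j := v + i + 1 with hj
  obtain ⟨K₀, hK₀⟩ : ∃ K₀ : ℕ, (124 / 125 : ℝ) ^ K₀ < ε₁ / 3 / (4 * 4 ^ j * 125) :=
    exists_pow_lt_of_lt_one (by positivity) (by norm_num)
  refine ⟨K₀, 2 ^ j + ⌈6 / ε₁⌉₊ + 1, fun R hR l c a b ha hb => ?_⟩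
  set n : ℕ := 2 * R with hn
  have h2pow := Nat.one_le_two_pow (n := j)
  have hn1 : 1 ≤ n := by omega
  have hn0 : (0 : ℝ) < n := by exact_mod_cast hn1
  have hab : ∀ i, b i - a i ≤ n := by
    intro i
    have h1 := abs_le.1 (ha i)
    have h2 := abs_le.1 (hb i)
    rw [hn]; push_cast; omega
  have hn6 : 2 / (n : ℝ) ≤ ε₁ / 3 := by
    have h1 := Nat.le_ceil (6 / ε₁)
    have h2 : ((2 ^ j + ⌈6 / ε₁⌉₊ + 1 : ℕ) : ℝ) ≤ n := by exact_mod_cast (by omega : 2 ^ j + ⌈6 / ε₁⌉₊ + 1 ≤ n)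
    push_cast at h2
    have h3 : 6 / ε₁ ≤ n := by
      have : (0 : ℝ) < 2 ^ j := by positivity
      linarith
    rw [div_le_iff₀ hε10] at h3
    rw [div_le_iff₀ hn0]
    linarith
  set T := Nat.log 2 n with hT
  have hTn : 2 ^ T ≤ n := Nat.pow_log_le_self 2 (by omega)
  have hTn' : n < 2 ^ (T + 1) := Nat.lt_pow_succ_log_self (by norm_num) n
  have hT1 : j ≤ T := by
    rw [hT]
    apply Nat.le_log_of_pow_le (by norm_num)
    omega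
  have hsub : ({x ∈ Fintype.piFinset (fun i => Ioc (a i) (b i)) |
      0 < Pol A l c x ∧ ∃ k, K₀ ≤ k ∧ k ≤ T ∧ 4 * k ≤ 7 * od k (Pol A l c x).toNat} : Finset (ι → ℤ)) ⊆
      ({x ∈ Fintype.piFinset (fun i => Ioc (a i) (b i)) | (2 : ℤ) ^ j ∣ Dl A l x p} : Finset (ι → ℤ)) ∪
      (Ico K₀ (T + 1)).biUnion (fun k =>
        ({x ∈ Fintype.piFinset (fun i => Ioc (a i) (b i)) | ¬ (2 : ℤ) ^ j ∣ Dl A l x p ∧ PB k (Pol A l c x)} : Finset (ι → ℤ))) := by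
    intro x hx
    rw [mem_filter] at hx
    rw [mem_union, mem_filter, mem_biUnion]
    by_cases h1 : (2 : ℤ) ^ j ∣ Dl A l x p
    · left; exact ⟨hx.1, h1⟩
    · right
      obtain ⟨hx1, hx2, k, hk1, hk2, hk3⟩ := hx
      refine ⟨k, mem_Ico.2 ⟨hk1, by omega⟩, ?_⟩
      rw [mem_filter]
      exact ⟨hx1, h1, (PB_iff hx2 k).2 hk3⟩
  have h1 := deriv_count A l hab hpr j
  have h2 : ∀ k ∈ Ico K₀ (T + 1), (#{x ∈ Fintype.piFinset (fun i => Ioc (a i) (b i)) |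
      ¬ (2 : ℤ) ^ j ∣ Dl A l x p ∧ PB k (Pol A l c x)} : ℝ) ≤ 4 * 4 ^ j * n ^ d * (124 / 125) ^ k := by
    intro k hk
    rw [mem_Ico] at hk
    have h3 := per_count A l c hab p (j := j) (T := T) (k := k) (by omega) (by omega) hTn' hTn (by omega)
      (PB k) (PB_per k) (PB_card k)
    refine h3.trans (le_of_eq ?_)
    ring
  have h3 : ∑ k ∈ Ico K₀ (T + 1), (124 / 125 : ℝ) ^ k ≤ 125 * (124 / 125) ^ K₀ := by
    refine (geom_sum_Ico_le_of_lt_one (by norm_num) (by norm_num)).trans (le_of_eq ?_)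
    norm_num
    ring
  have h6 : ((n : ℝ) / (2 ^ (j - v) : ℕ) + 2) * n ^ (Fintype.card ι - 1) ≤ (2 * ε₁ / 3) * n ^ Fintype.card ι := by
    have e : (n : ℝ) ^ Fintype.card ι = n * n ^ (Fintype.card ι - 1) := by
      rw [← pow_succ']; congr 1; omega
    rw [e, ← mul_assoc]
    apply mul_le_mul_of_nonneg_right _ (by positivity)
    have e2 : j - v = i + 1 := by omega
    rw [e2]
    have h7 : 1 / ((2 ^ (i + 1) : ℕ) : ℝ) ≤ ε₁ / 3 := by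
      rw [div_le_div_iff₀ (by positivity) (by norm_num)]
      rw [div_lt_iff₀ hε10] at hi
      push_cast
      rw [pow_succ]
      nlinarith
    have h8 : 2 ≤ ε₁ / 3 * n := by rwa [div_le_iff₀ hn0] at hn6
    have h9 : (n : ℝ) / ((2 ^ (i + 1) : ℕ) : ℝ) = (1 / ((2 ^ (i + 1) : ℕ) : ℝ)) * n := by ring
    rw [h9]
    have h10 : 1 / ((2 ^ (i + 1) : ℕ) : ℝ) * n ≤ ε₁ / 3 * n := by gcongr
    linarith
  calc _ ≤ (#{x ∈ Fintype.piFinset (fun i => Ioc (a i) (b i)) | (2 : ℤ) ^ j ∣ Dl A l x p} : ℝ) +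
        ∑ k ∈ Ico K₀ (T + 1), (#{x ∈ Fintype.piFinset (fun i => Ioc (a i) (b i)) |
          ¬ (2 : ℤ) ^ j ∣ Dl A l x p ∧ PB k (Pol A l c x)} : ℝ) := by
        exact_mod_cast (card_le_card hsub).trans ((card_union_le _ _).trans (Nat.add_le_add_left card_biUnion_le _))
    _ ≤ (2 * ε₁ / 3) * n ^ d + ∑ k ∈ Ico K₀ (T + 1), 4 * 4 ^ j * (n : ℝ) ^ d * (124 / 125) ^ k := by
        apply add_le_add
        · exact h1.trans h6
        · exact sum_le_sum h2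
    _ = (2 * ε₁ / 3) * n ^ d + 4 * 4 ^ j * (n : ℝ) ^ d * ∑ k ∈ Ico K₀ (T + 1), (124 / 125 : ℝ) ^ k := by
        rw [mul_sum]
    _ ≤ (2 * ε₁ / 3) * n ^ d + 4 * 4 ^ j * (n : ℝ) ^ d * (125 * (ε₁ / 3 / (4 * 4 ^ j * 125))) := by
        gcongr
        refine h3.trans ?_
        gcongr
    _ = ε₁ * n ^ d := by field_simp; ring
    _ = ε * (R : ℝ) ^ d := by
        rw [hn, hε1]; push_cast
        rw [mul_pow]
        field_simp

end Pool.Agent.Run7.h145.QX
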