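import Pool.Agent.Run7.h145.QX.D

/-! Values of quadratic polynomials: few large excursions. -/

set_option autoImplicit false

namespace Pool.Agent.Run7.h145.QX

open Finset Filter Topology
open Pool.Agent.H499R2.ND
open Pool.Agent.Helper894.Collatz (od er)

theorem od_small {k o : ℕ} (hk : 7 ≤ k) (h : 7 * o < 4 * k) : (3 : ℝ) ^ o ≤ 81 / 128 * 2 ^ k := by
  by_contra hc
  push Not at hc
  have h1 : (81 / 128 * 2 ^ k : ℝ) ^ 7 < ((3 : ℝ) ^ o) ^ 7 := pow_lt_pow_left₀ hc (by positivity) (by norm_num)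
  have h2 : ((3 : ℝ) ^ o) ^ 7 ≤ 81 ^ k := by
    rw [← pow_mul, mul_comm o 7]
    calc (3 : ℝ) ^ (7 * o) ≤ 3 ^ (4 * k) := pow_le_pow_right₀ (by norm_num) h.le
      _ = 81 ^ k := by rw [pow_mul]; norm_num
  have h3 : (81 / 128 * 2 ^ k : ℝ) ^ 7 = (81 / 128) ^ 7 * 128 ^ k := by
    rw [mul_pow, ← pow_mul, mul_comm k 7, pow_mul]; norm_num
  have h4 : (81 / 128 : ℝ) ^ k ≤ (81 / 128) ^ 7 := pow_le_pow_of_le_one (by norm_num) (by norm_num) hk
  have h5 : (81 : ℝ) ^ k ≤ (81 / 128) ^ 7 * 128 ^ k := by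
    calc (81 : ℝ) ^ k = (81 / 128) ^ k * 128 ^ k := by rw [← mul_pow]; norm_num
      _ ≤ _ := by gcongr
  linarith

theorem od_small' {T o m : ℕ} (h : 7 * o < 4 * T) (hm : 12 * m ≤ T) : 3 ^ o * 2 ^ m ≤ 2 ^ T := by
  by_contra hc
  push Not at hc
  have h1 : (2 ^ T) ^ 77 < (3 ^ o * 2 ^ m) ^ 77 := Nat.pow_lt_pow_left hc (by norm_num)
  have h2 : (3 ^ o * 2 ^ m) ^ 77 ≤ (2 ^ T) ^ 77 := by
    calc (3 ^ o * 2 ^ m) ^ 77 = 3 ^ (11 * (7 * o)) * 2 ^ (77 * m) := by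
          rw [mul_pow, ← pow_mul, ← pow_mul]
          congr 2 <;> ring
      _ ≤ 3 ^ (11 * (4 * T)) * 2 ^ (7 * T) := by
          apply Nat.mul_le_mul
          · apply Nat.pow_le_pow_right (by norm_num); omega
          · apply Nat.pow_le_pow_right (by norm_num); omega
      _ = (3 ^ 44) ^ T * 2 ^ (7 * T) := by rw [← pow_mul]; congr 2; ring
      _ ≤ (2 ^ 70) ^ T * 2 ^ (7 * T) := by
          apply Nat.mul_le_mul_right
          apply Nat.pow_le_pow_left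
          norm_num
      _ = (2 ^ T) ^ 77 := by rw [← pow_mul, ← pow_mul, ← pow_add]; congr 1; ring
  omega

theorem pow_small {T m : ℕ} (hm : 12 * m ≤ T) : 3 ^ T * 2 ^ m ≤ 2 ^ T * 2 ^ T := by
  by_contra hc
  push Not at hc
  have h1 : (2 ^ T * 2 ^ T) ^ 12 < (3 ^ T * 2 ^ m) ^ 12 := Nat.pow_lt_pow_left hc (by norm_num)
  have h2 : (3 ^ T * 2 ^ m) ^ 12 ≤ (2 ^ T * 2 ^ T) ^ 12 := by
    calc (3 ^ T * 2 ^ m) ^ 12 = (3 ^ 12) ^ T * 2 ^ (12 * m) := by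
          rw [mul_pow, ← pow_mul, ← pow_mul, ← pow_mul]
          congr 2 <;> ring
      _ ≤ (3 ^ 12) ^ T * 2 ^ T := Nat.mul_le_mul_left _ (Nat.pow_le_pow_right (by norm_num) hm)
      _ = (3 ^ 12 * 2) ^ T := by rw [mul_pow]
      _ ≤ (2 ^ 24) ^ T := Nat.pow_le_pow_left (by norm_num) _
      _ = (2 ^ T * 2 ^ T) ^ 12 := by rw [← pow_add, ← pow_mul, ← pow_mul]; congr 1; ring
  omega

/-- THE DETERMINISTIC PART -/
theorem det {η : ℝ} (hη : 0 < η) (E y : ℕ) {K : ℕ} (hK : 7 ≤ K) {lam : ℝ} (hl : 1 ≤ lam) :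
    ∃ R₁ : ℕ, ∀ R : ℕ, R₁ ≤ R → ∀ n : ℕ, η * R ^ 2 < n → n ≤ E * R ^ 2 → Bdd n → AK K lam n →
      (∀ k, K ≤ k → k ≤ Nat.log 2 (2 * R) → 7 * od k n < 4 * k) →
      GG (HH R) (HH R * 2 ^ JJ R) y n → ∀ k, ((Tn^[k] n : ℕ) : ℝ) ≤ lam * n := by
  classical
  -- bound for the bounded trajectories of small integers
  have hM : ∀ a : ℕ, ∃ M : ℕ, Bdd a → ∀ k, Tn^[k] a ≤ M := by
    intro a
    by_cases h : Bdd a
    · obtain ⟨M, hM⟩ := h
      exact ⟨M, fun _ => hM⟩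
    · exact ⟨0, fun h' => absurd h' h⟩
  choose M hM using hM
  set W : ℕ := (range (y + 1)).sup M with hW
  obtain ⟨n1, hn1⟩ := exists_nK K lam
  obtain ⟨J₀, hJ₀⟩ := pow_unbounded_of_one_lt (1 / η + E + 2) (show (1 : ℝ) < 2 by norm_num)
  obtain ⟨T₁, hT₁⟩ := pow_unbounded_of_one_lt (512 / (47 * η)) (show (1 : ℝ) < 8 / 3 by norm_num)
  refine ⟨2 ^ (48 * J₀ + 48 + T₁ + K) + ⌈((W : ℝ) + n1 + 1) / η⌉₊ + 1, fun R hR n hnη hnE hB hAK hod hG => ?_⟩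
  have h2pow := Nat.one_le_two_pow (n := 48 * J₀ + 48 + T₁ + K)
  have hR1 : 1 ≤ R := by omega
  have hRr : (1 : ℝ) ≤ R := by exact_mod_cast hR1
  set T := Nat.log 2 (2 * R) with hT
  have hTT : 48 * J₀ + 48 + T₁ + K ≤ T := by
    rw [hT]
    apply Nat.le_log_of_pow_le (by norm_num)
    omega
  have hT2 : 2 ^ T ≤ 2 * R := Nat.pow_log_le_self 2 (by omega)
  have hT2r : (2 : ℝ) ^ T ≤ 2 * R := by exact_mod_cast hT2
  have hJJ : JJ R = T / 48 := rfl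
  have hJ0 : J₀ ≤ JJ R := by rw [hJJ]; omega
  have hJr : 1 / η + E + 2 < (2 : ℝ) ^ JJ R := hJ₀.trans_le (pow_le_pow_right₀ (by norm_num) hJ0)
  have hηinv : 0 < 1 / η := by positivity
  -- `n` is large
  have hnbig : (W : ℝ) + n1 + 1 ≤ n := by
    have h1 := Nat.le_ceil (((W : ℝ) + n1 + 1) / η)
    have h2 : ((2 ^ (48 * J₀ + 48 + T₁ + K) + ⌈((W : ℝ) + n1 + 1) / η⌉₊ + 1 : ℕ) : ℝ) ≤ R := by exact_mod_cast hR
    push_cast at h2
    have h3 : ((W : ℝ) + n1 + 1) / η ≤ R := by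
      have : (0 : ℝ) < 2 ^ (48 * J₀ + 48 + T₁ + K) := by positivity
      linarith
    rw [div_le_iff₀ hη] at h3
    have h4 : (R : ℝ) * η ≤ η * R ^ 2 := by nlinarith
    linarith
  have hWn : (0 : ℝ) ≤ W := Nat.cast_nonneg _
  have hn1n : (0 : ℝ) ≤ n1 := Nat.cast_nonneg _
  have hn0 : (1 : ℝ) ≤ n := by linarith
  have hnat : 1 ≤ n := by exact_mod_cast hn0
  have hlamn : (n : ℝ) ≤ lam * n := by nlinarith
  -- the steps up to `T`
  have hfirst : ∀ k, K ≤ k → k ≤ T → ((Tn^[k] n : ℕ) : ℝ) ≤ n := by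
    intro k hk1 hk2
    have h1 := iter_real k n
    have h2 := od_small (hK.trans hk1) (hod k hk1 hk2)
    have h3 : (er k n : ℝ) ≤ 3 ^ k := by
      exact_mod_cast (Nat.le_add_right _ _).trans (er_le k n)
    have h4 : (3 / 2 : ℝ) ^ k ≤ 47 / 128 * n := by
      have h5 : (3 / 2 : ℝ) ^ k ≤ (3 / 2) ^ T := pow_le_pow_right₀ (by norm_num) hk2
      have h6 : (3 / 2 : ℝ) ^ T ≤ 47 / 512 * η * 4 ^ T := by
        have h7 : 512 / (47 * η) < (8 / 3 : ℝ) ^ T := hT₁.trans_le (pow_le_pow_right₀ (by norm_num) (by omega))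
        rw [div_lt_iff₀ (by positivity)] at h7
        have h8 : (4 : ℝ) ^ T = (3 / 2) ^ T * (8 / 3) ^ T := by rw [← mul_pow]; norm_num
        rw [h8]
        have h9 : (0 : ℝ) < (3 / 2) ^ T := by positivity
        nlinarith
      have h7 : (4 : ℝ) ^ T ≤ 4 * R ^ 2 := by
        calc (4 : ℝ) ^ T = (2 ^ T) ^ 2 := by rw [← pow_mul, mul_comm, pow_mul]; norm_num
          _ ≤ (2 * R) ^ 2 := pow_le_pow_left₀ (by positivity) hT2r 2
          _ = 4 * R ^ 2 := by ring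
      have h8 : 47 / 512 * η * (4 : ℝ) ^ T ≤ 47 / 512 * η * (4 * R ^ 2) := by gcongr
      nlinarith
    have h5 : (3 : ℝ) ^ k = (3 / 2) ^ k * 2 ^ k := by rw [← mul_pow]; norm_num
    have h2k : (0 : ℝ) < 2 ^ k := by positivity
    have h6 : (2 : ℝ) ^ k * ((Tn^[k] n : ℕ) : ℝ) ≤ 2 ^ k * n := by
      rw [h1]
      have h7 : (3 : ℝ) ^ od k n * n ≤ 81 / 128 * 2 ^ k * n := by gcongr
      have h8 : (3 / 2 : ℝ) ^ k * 2 ^ k ≤ 47 / 128 * n * 2 ^ k := by gcongr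
      rw [h5] at h3
      linarith
    exact le_of_mul_le_mul_left h6 h2k
  -- the term at `T`
  have hTH : Tn^[T] n ≤ HH R := by
    unfold HH
    rw [Nat.le_div_iff_mul_le (by positivity)]
    have h1 := hod T (by omega) le_rfl
    set m := T / 12 with hm
    have h2 := od_small' (m := m) h1 (by omega)
    have h3 := pow_small (T := T) (m := m) (by omega)
    have h4 : 2 ^ T * Tn^[T] n = 3 ^ od T n * n + er T n := by
      have := iter_real T n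
      exact_mod_cast this
    have h5 : er T n ≤ 3 ^ T := (Nat.le_add_right _ _).trans (er_le T n)
    have h6 : 2 ^ T * (Tn^[T] n * 2 ^ m) ≤ 2 ^ T * (n + 2 ^ T) := by
      calc 2 ^ T * (Tn^[T] n * 2 ^ m) = (3 ^ od T n * n + er T n) * 2 ^ m := by rw [← h4]; ring
        _ = (3 ^ od T n * 2 ^ m) * n + er T n * 2 ^ m := by ring
        _ ≤ 2 ^ T * n + 3 ^ T * 2 ^ m := Nat.add_le_add (Nat.mul_le_mul_right _ h2) (Nat.mul_le_mul_right _ h5)
        _ ≤ 2 ^ T * n + 2 ^ T * 2 ^ T := Nat.add_le_add_left h3 _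
        _ = _ := by ring
    have h7 : Tn^[T] n * 2 ^ m ≤ n + 2 ^ T := Nat.le_of_mul_le_mul_left h6 (by positivity)
    have h8 : Tn^[T] n * 2 ^ m ≤ (E + 2) * R ^ 2 := by
      refine h7.trans ?_
      have : R ≤ R ^ 2 := by rw [sq]; exact Nat.le_mul_self R
      nlinarith
    have h9 : (E + 2) ≤ 4 ^ JJ R := by
      have h10 : (E : ℝ) + 2 ≤ 4 ^ JJ R := by
        have h11 : (2 : ℝ) ^ JJ R ≤ 4 ^ JJ R := pow_le_pow_left₀ (by norm_num) (by norm_num) _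
        linarith
      exact_mod_cast h10
    have h10 : 4 ^ JJ R * 4 ^ JJ R ≤ 2 ^ m := by
      have e : (4 : ℕ) = 2 ^ 2 := by norm_num
      rw [e, ← pow_mul, ← pow_add]
      apply Nat.pow_le_pow_right (by norm_num)
      rw [hJJ, hm]; omega
    have h11 : 4 ^ JJ R * (Tn^[T] n * 4 ^ JJ R) ≤ 4 ^ JJ R * R ^ 2 := by
      calc 4 ^ JJ R * (Tn^[T] n * 4 ^ JJ R) = Tn^[T] n * (4 ^ JJ R * 4 ^ JJ R) := by ring
        _ ≤ Tn^[T] n * 2 ^ m := Nat.mul_le_mul_left _ h10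
        _ ≤ (E + 2) * R ^ 2 := h8
        _ ≤ 4 ^ JJ R * R ^ 2 := Nat.mul_le_mul_right _ h9
    exact Nat.le_of_mul_le_mul_left h11 (by positivity)
  obtain ⟨t, ht, hG'⟩ := hG
  intro k
  rcases Nat.lt_or_ge k K with hkK | hkK
  · rcases Nat.eq_zero_or_pos k with rfl | hk0
    · exact hlamn
    · have h1 := hAK k hk0 hkK.le
      have h2 := hn1 k hkK.le (od k n) ((od_le k n).trans hkK.le) h1
      have h3 := iter_real k n
      have h4 : (er k n : ℝ) ≤ 3 ^ K := by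
        have h5 : er k n ≤ 3 ^ k := (Nat.le_add_right _ _).trans (er_le k n)
        have h6 : 3 ^ k ≤ 3 ^ K := Nat.pow_le_pow_right (by norm_num) hkK.le
        exact_mod_cast h5.trans h6
      have h5 : (lam * 2 ^ k - 3 ^ od k n) * n1 ≤ (lam * 2 ^ k - 3 ^ od k n) * n := by
        apply mul_le_mul_of_nonneg_left _ (by linarith)
        linarith
      have h6 : (2 : ℝ) ^ k * ((Tn^[k] n : ℕ) : ℝ) ≤ 2 ^ k * (lam * n) := by
        rw [h3]; linarith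
      exact le_of_mul_le_mul_left h6 (by positivity)
  · rcases Nat.lt_or_ge T k with hkT | hkT
    · refine le_trans ?_ hlamn
      rcases Nat.lt_or_ge t k with hkt | hkt
      · obtain ⟨i, rfl⟩ : ∃ i, k = i + t := ⟨k - t, by omega⟩
        rw [Function.iterate_add_apply]
        have h1 := hM _ ((Bdd_iter n t).1 hB) i
        have h2 : M (Tn^[t] n) ≤ W := Finset.le_sup (f := M) (mem_range.2 (by omega))
        have h3 : ((Tn^[i] (Tn^[t] n) : ℕ) : ℝ) ≤ W := by exact_mod_cast h1.trans h2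
        linarith
      · have h1 := hG' T k hkT.le hkt hTH
        have h2 : HH R * 2 ^ JJ R * 2 ^ JJ R ≤ R ^ 2 := by
          have h3 : HH R * 4 ^ JJ R ≤ R ^ 2 := Nat.div_mul_le_self _ _
          have h4 : (4 : ℕ) ^ JJ R = 2 ^ JJ R * 2 ^ JJ R := by rw [← mul_pow]; norm_num
          rw [h4] at h3
          linarith
        have h2r : ((HH R * 2 ^ JJ R : ℕ) : ℝ) * 2 ^ JJ R ≤ R ^ 2 := by exact_mod_cast h2
        have h1r : ((Tn^[k] n : ℕ) : ℝ) ≤ ((HH R * 2 ^ JJ R : ℕ) : ℝ) := by exact_mod_cast h1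
        have h3 : 1 ≤ η * 2 ^ JJ R := by
          have h4 : 1 / η ≤ (2 : ℝ) ^ JJ R := by
            have : (0 : ℝ) ≤ E := Nat.cast_nonneg _
            linarith
          rwa [div_le_iff₀ hη, mul_comm] at h4
        have h4 : (0 : ℝ) ≤ ((HH R * 2 ^ JJ R : ℕ) : ℝ) := Nat.cast_nonneg _
        have h5 : ((HH R * 2 ^ JJ R : ℕ) : ℝ) ≤ η * R ^ 2 := by
          calc ((HH R * 2 ^ JJ R : ℕ) : ℝ) = ((HH R * 2 ^ JJ R : ℕ) : ℝ) * 1 := by ring
            _ ≤ ((HH R * 2 ^ JJ R : ℕ) : ℝ) * (η * 2 ^ JJ R) := by gcongr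
            _ = η * (((HH R * 2 ^ JJ R : ℕ) : ℝ) * 2 ^ JJ R) := by ring
            _ ≤ η * R ^ 2 := by gcongr
        linarith
    · exact (hfirst k hkK hkT).trans hlamn

open Pool.Agent.Run7.h145.QP Pool.Agent.Run7.h145.QL

variable {ι : Type} [Fintype ι] [DecidableEq ι]

open Classical in
/-- FEW LARGE EXCURSIONS -/
theorem few_exc (A : ι → ι → ℤ) {p q r t : ι} (hpq : p ≠ q) (hrt : r ≠ t)
    (hdet : Sy A p r * Sy A q t - Sy A p t * Sy A q r ≠ 0) {B ε : ℝ} (hB : 0 < B) (hε : 0 < ε) :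
    ∃ K₀ : ℕ, ∀ K : ℕ, K₀ ≤ K → ∀ lam : ℝ, 1 ≤ lam → ∃ R₁ : ℕ, ∀ R : ℕ, R₁ ≤ R →
      ∀ (l : ι → ℤ) (c : ℤ) (a b : ι → ℤ), (∀ i, |(l i : ℝ)| ≤ B * R) → |(c : ℝ)| ≤ B * R ^ 2 →
      (∀ i, |a i| ≤ R) → (∀ i, |b i| ≤ R) →
      (#{x ∈ Fintype.piFinset (fun i => Ioc (a i) (b i)) |
        0 < Pol A l c x ∧ Bdd (Pol A l c x).toNat ∧ AK K lam (Pol A l c x).toNat ∧
          ¬ ∀ k, ((Tn^[k] (Pol A l c x).toNat : ℕ) : ℝ) ≤ lam * ((Pol A l c x).toNat : ℕ)} : ℝ) ≤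
        ε * R ^ Fintype.card ι := by
  obtain ⟨r', hpr⟩ : ∃ r', Sy A p r' ≠ 0 := by
    by_contra h
    push Not at h
    apply hdet
    rw [h r, h t]; ring
  obtain ⟨η, hη, R₁, h1⟩ := few_small A hpq hrt hdet hB (show 0 < ε / 3 by positivity)
  obtain ⟨E, y, R₂, h2⟩ := few_GG A hpq hrt hdet hB (show 0 < ε / 3 by positivity)
  obtain ⟨K₀, R₃, h3⟩ := few_first A hpr (show 0 < ε / 3 by positivity)
  refine ⟨K₀ + 7, fun K hK lam hlam => ?_⟩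
  obtain ⟨R₄, h4⟩ := det hη E y (show 7 ≤ K by omega) hlam
  refine ⟨R₁ + R₂ + R₃ + R₄, fun R hR l c a b hl hc ha hb => ?_⟩
  obtain ⟨-, h2'⟩ := h2 R (by omega)
  obtain ⟨hE, h2''⟩ := h2' l c a b hl hc ha hb
  have h1' := h1 R (by omega) l c a b hl hc ha hb ⌊η * (R : ℝ) ^ 2⌋
  have h3' := h3 R (by omega) l c a b ha hb
  have hsub : ({x ∈ Fintype.piFinset (fun i => Ioc (a i) (b i)) |
        0 < Pol A l c x ∧ Bdd (Pol A l c x).toNat ∧ AK K lam (Pol A l c x).toNat ∧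
          ¬ ∀ k, ((Tn^[k] (Pol A l c x).toNat : ℕ) : ℝ) ≤ lam * ((Pol A l c x).toNat : ℕ)} : Finset (ι → ℤ)) ⊆
      ({x ∈ Fintype.piFinset (fun i => Ioc (a i) (b i)) |
        ((⌊η * (R : ℝ) ^ 2⌋ : ℤ) : ℝ) - η * R ^ 2 < Pol A l c x ∧ Pol A l c x ≤ ⌊η * (R : ℝ) ^ 2⌋} : Finset (ι → ℤ)) ∪
      (({x ∈ Fintype.piFinset (fun i => Ioc (a i) (b i)) |
        0 < Pol A l c x ∧ ¬ GG (HH R) (HH R * 2 ^ JJ R) y (Pol A l c x).toNat} : Finset (ι → ℤ)) ∪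
      ({x ∈ Fintype.piFinset (fun i => Ioc (a i) (b i)) |
        0 < Pol A l c x ∧ ∃ k, K₀ ≤ k ∧ k ≤ Nat.log 2 (2 * R) ∧ 4 * k ≤ 7 * od k (Pol A l c x).toNat} : Finset (ι → ℤ))) := by
    intro x hx
    rw [mem_filter] at hx
    obtain ⟨hx0, hx1, hx2, hx3, hx4⟩ := hx
    rw [mem_union, mem_union, mem_filter, mem_filter, mem_filter]
    by_contra hcon
    push Not at hcon
    obtain ⟨c1, c2, c3⟩ := hcon
    have c2' := c2 hx0 hx1
    have c3' := c3 hx0 hx1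
    apply hx4
    have hnr : (((Pol A l c x).toNat : ℕ) : ℝ) = (Pol A l c x : ℝ) := by
      have : (((Pol A l c x).toNat : ℕ) : ℤ) = Pol A l c x := Int.toNat_of_nonneg hx1.le
      exact_mod_cast congrArg (fun z : ℤ => (z : ℝ)) this
    refine h4 R (by omega) _ ?_ ?_ hx2 hx3 (fun k hk1 hk2 => c3' k (by omega) hk2) c2'
    · rw [hnr]
      have hpos : ((⌊η * (R : ℝ) ^ 2⌋ : ℤ) : ℝ) - η * R ^ 2 < Pol A l c x := by
        have g1 := Int.floor_le (η * (R : ℝ) ^ 2)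
        have g2 : (0 : ℝ) < Pol A l c x := by exact_mod_cast hx1
        linarith
      have c1' := c1 hx0 hpos
      by_contra hcc
      push Not at hcc
      have := Int.le_floor.2 hcc
      omega
    · have g1 := (abs_le.1 (hE x hx0)).2
      have g2 : (((Pol A l c x).toNat : ℕ) : ℤ) ≤ ((E * R ^ 2 : ℕ) : ℤ) := by
        rw [Int.toNat_of_nonneg hx1.le]; push_cast; exact g1
      exact_mod_cast g2
  calc _ ≤ (#{x ∈ Fintype.piFinset (fun i => Ioc (a i) (b i)) |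
        ((⌊η * (R : ℝ) ^ 2⌋ : ℤ) : ℝ) - η * R ^ 2 < Pol A l c x ∧ Pol A l c x ≤ ⌊η * (R : ℝ) ^ 2⌋} : ℝ) +
      (#{x ∈ Fintype.piFinset (fun i => Ioc (a i) (b i)) |
        0 < Pol A l c x ∧ ¬ GG (HH R) (HH R * 2 ^ JJ R) y (Pol A l c x).toNat} +
      #{x ∈ Fintype.piFinset (fun i => Ioc (a i) (b i)) |
        0 < Pol A l c x ∧ ∃ k, K₀ ≤ k ∧ k ≤ Nat.log 2 (2 * R) ∧ 4 * k ≤ 7 * od k (Pol A l c x).toNat}) := by
        exact_mod_cast (card_le_card hsub).trans ((card_union_le _ _).trans (Nat.add_le_add_left (card_union_le _ _) _))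
    _ ≤ ε / 3 * R ^ Fintype.card ι + (ε / 3 * R ^ Fintype.card ι + ε / 3 * R ^ Fintype.card ι) :=
        add_le_add h1' (add_le_add h2'' h3')
    _ = _ := by ring

end Pool.Agent.Run7.h145.QX
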