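import Pool.Agent.Run7.h145.QX.E
import Pool.Agent.Run7.h145.QL.Y
import Pool.Agent.Run7.h145.QL.L3

/-! Values of quadratic polynomials: the law of the maximum excursion. -/

set_option autoImplicit false

namespace Pool.Agent.Run7.h145.QX

open Finset Filter Topology
open Pool.Agent.H499R2.ND
open Pool.Agent.Run7.h145.QP (Pol Sy)
open Pool.Agent.Run7.h145.QL
open Pool.Agent.Run7.h145.QL.X

/-- `t(n) ≤ lam n` -/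
def Ex (lam : ℝ) (n : ℕ) : Prop := ∀ k, ((Tn^[k] n : ℕ) : ℝ) ≤ lam * n

theorem Ex_Bdd {lam : ℝ} {n : ℕ} (h : Ex lam n) : Bdd n := by
  refine ⟨⌊lam * n⌋₊, fun k => ?_⟩
  exact Nat.le_floor (h k)

/-- invariant sets of positive integers of finite excursion -/
def FI (S : ℕ → Prop) : Prop := (∀ n, 1 ≤ n → (S n ↔ S (Tn n))) ∧ ∀ n, S n → Bdd n

theorem FI_Bdd : FI Bdd := ⟨fun n _ => Bdd_inv n, fun _ h => h⟩

/-- the invariant set of integers -/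
def SZ (S : ℕ → Prop) : Set ℤ := {z | 0 < z ∧ S z.toNat}

theorem SZ_inv {S : ℕ → Prop} (hS : FI S) : Inv 1 (SZ S) := by
  intro z
  rcases lt_or_ge 0 z with hz | hz
  · lift z to ℕ using hz.le
    have hz1 : 1 ≤ z := by omega
    have h1 := Tn_pos hz1
    show (0 < (z : ℤ) ∧ S (z : ℤ).toNat) ↔ (0 < Td 1 (z : ℤ) ∧ S (Td 1 (z : ℤ)).toNat)
    rw [Td_cast, Int.toNat_natCast, Int.toNat_natCast, ← hS.1 z hz1]
    constructor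
    · rintro ⟨-, h⟩; exact ⟨by omega, h⟩
    · rintro ⟨-, h⟩; exact ⟨by omega, h⟩
  · have h1 : ¬ 0 < Td 1 z := by
      unfold Td
      split_ifs <;> omega
    exact ⟨fun h => absurd h.1 (by omega), fun h => absurd h.1 h1⟩

theorem SZ_iff {S : ℕ → Prop} {n : ℕ} (hn : 1 ≤ n) : (1 : ℤ) * (n : ℤ) ∈ SZ S ↔ S n := by
  rw [one_mul]
  show (0 < (n : ℤ) ∧ S (n : ℤ).toNat) ↔ _
  rw [Int.toNat_natCast]
  exact ⟨fun h => h.2, fun h => ⟨by omega, h⟩⟩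

theorem freq_S {S : ℕ → Prop} (hS : FI S) {δ : ℝ} (hδ : Dn S δ) : Frequency S δ := by
  have h1 : Dn (fun n : ℕ => (1 : ℤ) * (n : ℤ) ∈ SZ S) δ := by
    refine hδ.congr fun N => ?_
    congr 1
    unfold cnt
    congr 2
    ext n
    constructor
    · rintro ⟨g1, g2, g3⟩; exact ⟨g1, g2, (SZ_iff g1).2 g3⟩
    · rintro ⟨g1, g2, g3⟩; exact ⟨g1, g2, (SZ_iff g1).1 g3⟩
  have h2 := RL_inv QV (s := 1) (Or.inl rfl) (SZ_inv hS) h1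
  exact of_fr (Target.congr QV 1 (fun n hn => SZ_iff hn) h2)

theorem freq_Bdd {β : ℝ} (hβ : Dn Bdd β) : Frequency Bdd β := freq_S FI_Bdd hβ

theorem ncard_box {k : ℕ} (a b : Fin k → ℤ) (Q : (Fin k → ℤ) → Prop) [DecidablePred Q] :
    {x : Fin k → ℤ | (∀ i, a i < x i ∧ x i ≤ b i) ∧ Q x}.ncard =
      #{x ∈ Fintype.piFinset (fun i => Ioc (a i) (b i)) | Q x} := by
  rw [← Set.ncard_coe_finset]
  congr 1
  ext x
  rw [mem_coe, mem_filter, Fintype.mem_piFinset]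
  simp only [mem_Ioc]
  rfl

theorem box_finite {k : ℕ} (a b : Fin k → ℤ) (Q : (Fin k → ℤ) → Prop) :
    {x : Fin k → ℤ | (∀ i, a i < x i ∧ x i ≤ b i) ∧ Q x}.Finite := by
  apply (Fintype.piFinset (fun i => Ioc (a i) (b i))).finite_toSet.subset
  rintro x ⟨h1, -⟩
  rw [mem_coe, Fintype.mem_piFinset]
  exact fun i => mem_Ioc.2 (h1 i)

/-- THE LAW -/
theorem law {k : ℕ} {A : Fin k → Fin k → ℤ} (hA : RankTwo A) {B ε : ℝ} (hB : 0 < B)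
    (hε : 0 < ε) : ∃ K₀ : ℕ, ∀ K : ℕ, K₀ ≤ K → ∀ (lam : ℝ) (q : ℕ), 1 ≤ lam → 1 ≤ q →
      ∀ (S : ℕ → Prop) (δ : ℝ), FI S → Dn S δ → ∃ R₀ : ℕ, ∀ R : ℕ, R₀ ≤ R →
      ∀ (l : Fin k → ℤ) (c : ℤ) (a b : Fin k → ℤ), (∀ i, |(l i : ℝ)| ≤ B * R) → |(c : ℝ)| ≤ B * R ^ 2 →
      (∀ i, |a i| ≤ R ∧ |b i| ≤ R) → ∀ (u v : ℤ) (D : Set (Fin k → ℤ)),
      (∀ x y : Fin k → ℤ, (∀ i, x i ≡ y i [ZMOD q]) → (x ∈ D ↔ y ∈ D)) →
      |({x ∈ Points A l c a b u v D | S (Val A l c x).toNat ∧ Ex lam (Val A l c x).toNat}.ncard : ℝ) -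
        δ * {x ∈ Points A l c a b u v D | AK K lam (Val A l c x).toNat}.ncard| ≤ ε * R ^ k := by
  classical
  obtain ⟨p1, p2, p3, p4, m1, m2, m3⟩ := mi hA
  obtain ⟨K₀, h1⟩ := few_exc A m1 m2 m3 hB (show 0 < ε / 2 by positivity)
  refine ⟨K₀, fun K hK lam q hlam hq S δ hS hδ => ?_⟩
  obtain ⟨R₁, h2⟩ := h1 K hK lam hlam
  obtain ⟨R₂, h3⟩ := freq_S hS hδ k A hA B (ε / 2) (2 ^ K * q) hB (by positivity)
    (Nat.one_le_iff_ne_zero.2 (by positivity))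
  refine ⟨R₁ + R₂, fun R hR l c a b hl hc hab u v D hD => ?_⟩
  have h2' := h2 R (by omega) l c a b hl hc (fun i => (hab i).1) (fun i => (hab i).2)
  rw [Fintype.card_fin] at h2'
  set D' : Set (Fin k → ℤ) := {x | x ∈ D ∧ AK K lam (Val A l c x % 2 ^ K).toNat} with hD'
  have hAKmod : ∀ z : ℤ, 0 < z → (AK K lam (z % 2 ^ K).toNat ↔ AK K lam z.toNat) := by
    intro z hz
    rw [mod_toNat hz, AK_mod]
  have hDD : ∀ x y : Fin k → ℤ, (∀ i, x i ≡ y i [ZMOD ((2 ^ K * q : ℕ) : ℤ)]) → (x ∈ D' ↔ y ∈ D') := by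
    intro x y hxy
    have g1 : x ∈ D ↔ y ∈ D := hD x y fun i => by
      have := hxy i
      push_cast at this
      exact Int.ModEq.of_mul_left _ this
    have g2 : Val A l c x ≡ Val A l c y [ZMOD 2 ^ K] := val_congr A l c (2 ^ K) fun i => by
      have := hxy i
      push_cast at this
      exact Int.ModEq.of_mul_right _ this
    show (x ∈ D ∧ AK K lam (Val A l c x % 2 ^ K).toNat) ↔ (y ∈ D ∧ AK K lam (Val A l c y % 2 ^ K).toNat)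
    rw [g1, show Val A l c x % 2 ^ K = Val A l c y % 2 ^ K from g2]
  have h4 := h3 R (by omega) l c a b hl hc hab u v D' hDD
  have e1 : Points A l c a b u v D' = {x ∈ Points A l c a b u v D | AK K lam (Val A l c x).toNat} := by
    ext x
    constructor
    · rintro ⟨g1, g2, g3, g4, g5⟩; exact ⟨⟨g1, g2, g3, g4⟩, (hAKmod _ g3).1 g5⟩
    · rintro ⟨⟨g1, g2, g3, g4⟩, g5⟩; exact ⟨g1, g2, g3, g4, (hAKmod _ g3).2 g5⟩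
  rw [e1] at h4
  have hfin : ∀ Q : (Fin k → ℤ) → Prop, {x | x ∈ {x ∈ Points A l c a b u v D | AK K lam (Val A l c x).toNat} ∧ Q x}.Finite := by
    intro Q
    exact (box_finite a b (fun _ => True)).subset fun x hx => ⟨hx.1.1.1, trivial⟩
  have e2 : ({x ∈ {x ∈ Points A l c a b u v D | AK K lam (Val A l c x).toNat} | S (Val A l c x).toNat}).ncard =
      {x ∈ Points A l c a b u v D | S (Val A l c x).toNat ∧ Ex lam (Val A l c x).toNat}.ncard +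
      {x ∈ {x ∈ Points A l c a b u v D | AK K lam (Val A l c x).toNat} | S (Val A l c x).toNat ∧
        ¬ Ex lam (Val A l c x).toNat}.ncard := by
    rw [← Set.ncard_union_eq _ _ (hfin _)]
    · congr 1
      ext x
      constructor
      · rintro ⟨g1, g2⟩
        by_cases g3 : Ex lam (Val A l c x).toNat
        · exact Or.inl ⟨g1.1, g2, g3⟩
        · exact Or.inr ⟨g1, g2, g3⟩
      · rintro (⟨g1, g1', g2⟩ | ⟨g1, g2, -⟩)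
        · have g3 : 0 < Val A l c x := g1.2.2.1
          exact ⟨⟨g1, AK_of_bound hlam (by omega) g2 K⟩, g1'⟩
        · exact ⟨g1, g2⟩
    · rw [Set.disjoint_left]
      rintro x ⟨-, -, g1⟩ ⟨-, -, g2⟩
      exact g2 g1
    · exact (box_finite a b (fun _ => True)).subset fun x hx => ⟨hx.1.1, trivial⟩
  have e3 : ({x ∈ {x ∈ Points A l c a b u v D | AK K lam (Val A l c x).toNat} | S (Val A l c x).toNat ∧
        ¬ Ex lam (Val A l c x).toNat}.ncard : ℝ) ≤ ε / 2 * R ^ k := by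
    refine le_trans ?_ h2'
    rw [← ncard_box]
    apply Nat.cast_le.2
    apply Set.ncard_le_ncard _ (box_finite a b _)
    rintro x ⟨⟨⟨g1, g2, g3, g4⟩, g5⟩, g6, g7⟩
    exact ⟨g1, g3, hS.2 _ g6, g5, g7⟩
  have e2r : (({x ∈ {x ∈ Points A l c a b u v D | AK K lam (Val A l c x).toNat} | S (Val A l c x).toNat}).ncard : ℝ) =
      {x ∈ Points A l c a b u v D | S (Val A l c x).toNat ∧ Ex lam (Val A l c x).toNat}.ncard +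
      {x ∈ {x ∈ Points A l c a b u v D | AK K lam (Val A l c x).toNat} | S (Val A l c x).toNat ∧
        ¬ Ex lam (Val A l c x).toNat}.ncard := by exact_mod_cast e2
  rw [e2r] at h4
  have e4 : (0 : ℝ) ≤ {x ∈ {x ∈ Points A l c a b u v D | AK K lam (Val A l c x).toNat} | S (Val A l c x).toNat ∧
        ¬ Ex lam (Val A l c x).toNat}.ncard := Nat.cast_nonneg _
  rw [abs_le] at h4 ⊢
  constructor <;> linarith [h4.1, h4.2]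

/-- every residue class is safe for `3 ^ K` -/
theorem AK_top (K : ℕ) (n : ℕ) : AK K (3 ^ K) n := by
  intro k hk1 hkK
  have h1 : (3 : ℝ) ^ Pool.Agent.Helper894.Collatz.od k n ≤ 3 ^ K :=
    pow_le_pow_right₀ (by norm_num) ((od_le k n).trans hkK)
  have h2 : (1 : ℝ) < 2 ^ k := one_lt_pow₀ (by norm_num) (by omega)
  have h3 : (0 : ℝ) < 3 ^ K := by positivity
  nlinarith

/-- THE TAIL -/
theorem tail {k : ℕ} {A : Fin k → Fin k → ℤ} (hA : RankTwo A) {B ε : ℝ} (hB : 0 < B) (hε : 0 < ε) :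
    ∃ Λ : ℝ, 1 ≤ Λ ∧ ∃ R₀ : ℕ, ∀ R : ℕ, R₀ ≤ R →
      ∀ (l : Fin k → ℤ) (c : ℤ) (a b : Fin k → ℤ), (∀ i, |(l i : ℝ)| ≤ B * R) → |(c : ℝ)| ≤ B * R ^ 2 →
      (∀ i, |a i| ≤ R ∧ |b i| ≤ R) →
      ({x : Fin k → ℤ | (∀ i, a i < x i ∧ x i ≤ b i) ∧ 0 < Val A l c x ∧ Bdd (Val A l c x).toNat ∧
        ¬ Ex Λ (Val A l c x).toNat}.ncard : ℝ) ≤ ε * R ^ k := by
  classical
  obtain ⟨p1, p2, p3, p4, m1, m2, m3⟩ := mi hA
  obtain ⟨K₀, h1⟩ := few_exc A m1 m2 m3 hB hε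
  have hΛ : (1 : ℝ) ≤ 3 ^ K₀ := one_le_pow₀ (by norm_num)
  obtain ⟨R₁, h2⟩ := h1 K₀ le_rfl (3 ^ K₀) hΛ
  refine ⟨3 ^ K₀, hΛ, R₁, fun R hR l c a b hl hc hab => ?_⟩
  have h2' := h2 R hR l c a b hl hc (fun i => (hab i).1) (fun i => (hab i).2)
  rw [Fintype.card_fin] at h2'
  refine le_trans ?_ h2'
  rw [← ncard_box]
  apply Nat.cast_le.2
  apply Set.ncard_le_ncard _ (box_finite a b _)
  rintro x ⟨g1, g2, g3, g4⟩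
  exact ⟨g1, g2, g3, AK_top _ _, g4⟩

/-- REPRESENTATIONS -/
theorem represent_ex {β : ℝ} (hβ0 : 0 < β) (hβ : Dn Bdd β) {α δ γ : ℤ} (hdisc : δ ^ 2 ≠ 4 * α * γ) :
    ∃ κ Λ : ℝ, 0 < κ ∧ 1 ≤ Λ ∧ ∃ n₀ : ℕ, ∀ n : ℕ, n₀ ≤ n →
      κ * n ≤ {p : ℤ × ℤ | (0 < p.1 ∧ p.1 ^ 2 ≤ n) ∧ (0 < p.2 ∧ p.2 ^ 2 ≤ n) ∧
        ∃ t : ℕ, 1 ≤ t ∧ Ex Λ t ∧ (n : ℤ) = (α * p.1 ^ 2 + δ * p.1 * p.2 + γ * p.2 ^ 2) + t}.ncard := by
  obtain ⟨κ, hκ, n₁, h1⟩ := represent hβ0 (freq_Bdd hβ) hdisc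
  obtain ⟨Λ, hΛ, R₀, h2⟩ := tail (A := Bin (-α) (-δ) (-γ)) (bin_rank (by intro h1; apply hdisc; linear_combination h1))
    (B := 4) (by norm_num) (show 0 < κ / 2 by positivity)
  refine ⟨κ / 2, Λ, by positivity, hΛ, n₁ + R₀ ^ 2 + 1, fun n hn => ?_⟩
  have h3 := h1 n (by omega)
  set R := Nat.sqrt n with hR
  have hRR : R₀ ≤ R := Nat.le_sqrt'.2 (by omega)
  have hRn : R ^ 2 ≤ n := Nat.sqrt_le' n
  have hRn' : n < (R + 1) ^ 2 := Nat.lt_succ_sqrt' n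
  have hR1 : 1 ≤ R := Nat.le_sqrt'.2 (by omega)
  have hn4 : n ≤ 4 * R ^ 2 := by nlinarith
  have h4 := h2 R hRR 0 n (fun _ => 0) (fun _ => (R : ℤ)) (by
    intro i; simp) (by
    have : |((n : ℤ) : ℝ)| = n := by simp
    rw [this]
    exact_mod_cast hn4) (by
    intro i
    exact ⟨by simp, by simp⟩)
  have hval : ∀ x : Fin 2 → ℤ, Val (Bin (-α) (-δ) (-γ)) 0 n x =
      n - (α * x 0 ^ 2 + δ * x 0 * x 1 + γ * x 1 ^ 2) := by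
    intro x; rw [bin_val]; ring
  have hsq : ∀ z : ℤ, 0 < z → z ^ 2 ≤ n → z ≤ R := by
    intro z hz hzn
    lift z to ℕ using hz.le
    have : z ≤ R := Nat.le_sqrt'.2 (by exact_mod_cast hzn)
    exact_mod_cast this
  have hfin0 : ∀ Q : ℤ → ℤ → Prop, {x : Fin 2 → ℤ | (0 < x 0 ∧ x 0 ^ 2 ≤ (n : ℤ)) ∧ (0 < x 1 ∧ x 1 ^ 2 ≤ (n : ℤ)) ∧
      Q (x 0) (x 1)}.Finite := by
    intro Q
    apply (cube_finite 2 n).subset
    rintro x ⟨⟨q1, q2⟩, ⟨q3, q4⟩, -⟩ i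
    fin_cases i
    · simp only [Fin.zero_eta]; rw [abs_of_pos q1]; nlinarith
    · simp only [Fin.mk_one]; rw [abs_of_pos q3]; nlinarith
  rw [ncard_pair (fun x y => (0 < x ∧ x ^ 2 ≤ n) ∧ (0 < y ∧ y ^ 2 ≤ n) ∧
    ∃ t : ℕ, 1 ≤ t ∧ Bdd t ∧ (n : ℤ) = (α * x ^ 2 + δ * x * y + γ * y ^ 2) + t)] at h3
  rw [ncard_pair (fun x y => (0 < x ∧ x ^ 2 ≤ n) ∧ (0 < y ∧ y ^ 2 ≤ n) ∧
    ∃ t : ℕ, 1 ≤ t ∧ Ex Λ t ∧ (n : ℤ) = (α * x ^ 2 + δ * x * y + γ * y ^ 2) + t)]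
  have hsub : {x : Fin 2 → ℤ | (0 < x 0 ∧ x 0 ^ 2 ≤ (n : ℤ)) ∧ (0 < x 1 ∧ x 1 ^ 2 ≤ (n : ℤ)) ∧
      ∃ t : ℕ, 1 ≤ t ∧ Bdd t ∧ (n : ℤ) = (α * x 0 ^ 2 + δ * x 0 * x 1 + γ * x 1 ^ 2) + t} ⊆
      {x : Fin 2 → ℤ | (0 < x 0 ∧ x 0 ^ 2 ≤ (n : ℤ)) ∧ (0 < x 1 ∧ x 1 ^ 2 ≤ (n : ℤ)) ∧
      ∃ t : ℕ, 1 ≤ t ∧ Ex Λ t ∧ (n : ℤ) = (α * x 0 ^ 2 + δ * x 0 * x 1 + γ * x 1 ^ 2) + t} ∪
      {x : Fin 2 → ℤ | (∀ i, (fun _ => (0 : ℤ)) i < x i ∧ x i ≤ (fun _ => (R : ℤ)) i) ∧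
        0 < Val (Bin (-α) (-δ) (-γ)) 0 n x ∧ Bdd (Val (Bin (-α) (-δ) (-γ)) 0 n x).toNat ∧
        ¬ Ex Λ (Val (Bin (-α) (-δ) (-γ)) 0 n x).toNat} := by
    rintro x ⟨g1, g2, t, g3, g4, g5⟩
    by_cases g6 : Ex Λ t
    · exact Or.inl ⟨g1, g2, t, g3, g6, g5⟩
    · right
      have e : Val (Bin (-α) (-δ) (-γ)) 0 n x = t := by rw [hval]; linarith
      refine ⟨fun i => ?_, ?_⟩
      · fin_cases i
        · exact ⟨g1.1, hsq _ g1.1 g1.2⟩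
        · exact ⟨g2.1, hsq _ g2.1 g2.2⟩
      · rw [e, Int.toNat_natCast]
        exact ⟨by omega, g4, g6⟩
  have h5 := (Set.ncard_le_ncard hsub ((hfin0 (fun y z => ∃ t : ℕ, 1 ≤ t ∧ Ex Λ t ∧
      (n : ℤ) = (α * y ^ 2 + δ * y * z + γ * z ^ 2) + t)).union (box_finite (fun _ => (0 : ℤ)) (fun _ => (R : ℤ))
      (fun x => 0 < Val (Bin (-α) (-δ) (-γ)) 0 n x ∧ Bdd (Val (Bin (-α) (-δ) (-γ)) 0 n x).toNat ∧
        ¬ Ex Λ (Val (Bin (-α) (-δ) (-γ)) 0 n x).toNat)))).trans (Set.ncard_union_le _ _)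
  have h6 : κ / 2 * (R : ℝ) ^ 2 ≤ κ / 2 * n := by
    have : ((R : ℝ)) ^ 2 ≤ n := by exact_mod_cast hRn
    gcongr
  have h5r : ({x : Fin 2 → ℤ | (0 < x 0 ∧ x 0 ^ 2 ≤ (n : ℤ)) ∧ (0 < x 1 ∧ x 1 ^ 2 ≤ (n : ℤ)) ∧
      ∃ t : ℕ, 1 ≤ t ∧ Bdd t ∧ (n : ℤ) = (α * x 0 ^ 2 + δ * x 0 * x 1 + γ * x 1 ^ 2) + t}.ncard : ℝ) ≤
      {x : Fin 2 → ℤ | (0 < x 0 ∧ x 0 ^ 2 ≤ (n : ℤ)) ∧ (0 < x 1 ∧ x 1 ^ 2 ≤ (n : ℤ)) ∧
      ∃ t : ℕ, 1 ≤ t ∧ Ex Λ t ∧ (n : ℤ) = (α * x 0 ^ 2 + δ * x 0 * x 1 + γ * x 1 ^ 2) + t}.ncard +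
      {x : Fin 2 → ℤ | (∀ i, (fun _ => (0 : ℤ)) i < x i ∧ x i ≤ (fun _ => (R : ℤ)) i) ∧
        0 < Val (Bin (-α) (-δ) (-γ)) 0 n x ∧ Bdd (Val (Bin (-α) (-δ) (-γ)) 0 n x).toNat ∧
        ¬ Ex Λ (Val (Bin (-α) (-δ) (-γ)) 0 n x).toNat}.ncard := by exact_mod_cast h5
  linarith

end Pool.Agent.Run7.h145.QX
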