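import Pool.Agent.Run7.h145.QX.F

/-! Values of quadratic polynomials: residue classes in the region where the polynomial is positive, and the
limit law of the maximum excursion. -/

set_option autoImplicit false

namespace Pool.Agent.Run7.h145.QX

open Finset Filter Topology
open Pool.Agent.H499R2.ND
open Pool.Agent.Run7.h145.QP (Pol Sy Lf Pol_add)
open Pool.Agent.Run7.h145.QL
open Pool.Agent.Run7.h145.QL.X

variable {k : ℕ}

/-- the points of the cube -/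
noncomputable def cb (k N : ℕ) : Finset (Fin k → ℤ) := Fintype.piFinset (fun _ => Icc (-(N : ℤ)) N)

theorem mem_cb {N : ℕ} {x : Fin k → ℤ} : x ∈ cb k N ↔ ∀ i, |x i| ≤ N := by
  unfold cb
  simp [abs_le, forall_and]

theorem card_cb (N : ℕ) : #(cb k N) = (2 * N + 1) ^ k := by
  unfold cb
  rw [Fintype.card_piFinset]
  simp only [Int.card_Icc, prod_const, card_univ, Fintype.card_fin]
  congr 1
  omega

theorem cb_mono {N M : ℕ} (h : N ≤ M) : cb k N ⊆ cb k M := by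
  intro x hx
  rw [mem_cb] at hx ⊢
  exact fun i => (hx i).trans (by exact_mod_cast h)

open Classical in
theorem small_cb {A : Fin k → Fin k → ℤ} (hA : RankTwo A) (l : Fin k → ℤ) (c : ℤ) (M : ℝ) {ε : ℝ} (hε : 0 < ε) :
    ∀ᶠ N : ℕ in atTop, (#{x ∈ cb k N | 0 < Val A l c x ∧ (Val A l c x : ℝ) ≤ M * N} : ℝ) ≤ ε * N ^ k := by
  obtain ⟨p1, p2, p3, p4, m1, m2, m3⟩ := mi hA
  obtain ⟨L, hL0, hL1, hL2⟩ := coef_bound l c
  obtain ⟨η, hη, R₁, h1⟩ := few_small A m1 m2 m3 hL0 (show 0 < ε / 2 ^ k by positivity)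
  filter_upwards [eventually_ge_atTop (R₁ + ⌈|M| / η⌉₊ + 1)] with N hN
  have hN1 : 1 ≤ N := by omega
  have hNr : (1 : ℝ) ≤ N := by exact_mod_cast hN1
  have h2 := h1 (N + 1) (by omega) l c (fun _ => -(N : ℤ) - 1) (fun _ => (N : ℤ)) (fun i => by
      push_cast
      have := hL1 i
      nlinarith) (by
      push_cast
      have : (1 : ℝ) ≤ ((N : ℝ) + 1) ^ 2 := by nlinarith
      nlinarith) (fun i => by
        rw [abs_le]; push_cast; constructor <;> omega) (fun i => by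
        rw [abs_le]; push_cast; constructor <;> omega) ⌊η * ((N + 1 : ℕ) : ℝ) ^ 2⌋
  rw [Fintype.card_fin] at h2
  have hMN : M * N ≤ η * ((N + 1 : ℕ) : ℝ) ^ 2 := by
    have h3 := Nat.le_ceil (|M| / η)
    have h4 : ((R₁ + ⌈|M| / η⌉₊ + 1 : ℕ) : ℝ) ≤ N := by exact_mod_cast hN
    push_cast at h4
    have h5 : |M| / η ≤ N := by
      have : (0 : ℝ) ≤ R₁ := Nat.cast_nonneg _
      linarith
    rw [div_le_iff₀ hη] at h5
    have h6 := le_abs_self M
    push_cast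
    nlinarith
  refine le_trans ?_ (h2.trans ?_)
  · apply Nat.cast_le.2
    apply card_le_card
    intro x hx
    rw [mem_filter, mem_cb] at hx
    obtain ⟨g1, g2, g3⟩ := hx
    rw [mem_filter, Fintype.mem_piFinset]
    refine ⟨fun i => ?_, ?_, ?_⟩
    · have := abs_le.1 (g1 i)
      rw [mem_Ioc]; omega
    · have g4 := Int.floor_le (η * ((N + 1 : ℕ) : ℝ) ^ 2)
      have g5 : (0 : ℝ) < (Val A l c x : ℤ) := by exact_mod_cast g2
      have g6 : (Pol A l c x : ℝ) = (Val A l c x : ℝ) := rfl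
      rw [g6]
      linarith
    · exact Int.le_floor.2 (g3.trans hMN)
  · calc ε / 2 ^ k * ((N + 1 : ℕ) : ℝ) ^ k ≤ ε / 2 ^ k * (2 * N) ^ k := by
          gcongr
          push_cast; linarith
      _ = ε * (N : ℝ) ^ k := by rw [mul_pow]; field_simp

theorem shell (Q : ℕ) {ε : ℝ} (hε : 0 < ε) : ∀ᶠ N : ℕ in atTop,
    ((2 * (N + Q) + 1 : ℝ)) ^ k - (2 * N + 1) ^ k ≤ ε * N ^ k := by
  have h1 : Tendsto (fun N : ℕ => ((2 : ℝ) + (2 * Q + 1) / N) ^ k - (2 + 1 / N) ^ k) atTop (𝓝 (((2 : ℝ) + 0) ^ k - (2 + 0) ^ k)) := by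
    apply Tendsto.sub
    · exact (tendsto_const_nhds.add (tendsto_const_div_atTop_nhds_zero_nat _)).pow k
    · exact (tendsto_const_nhds.add (tendsto_const_div_atTop_nhds_zero_nat _)).pow k
  rw [sub_self] at h1
  filter_upwards [h1.eventually (gt_mem_nhds hε), eventually_ge_atTop 1] with N h2 hN
  have hN0 : (0 : ℝ) < N := by exact_mod_cast hN
  have e1 : ((2 * (N + Q) + 1 : ℝ)) = (2 + (2 * Q + 1) / N) * N := by field_simp; ring
  have e2 : ((2 * N + 1 : ℝ)) = (2 + 1 / N) * N := by field_simp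
  rw [e1, e2, mul_pow, mul_pow, ← sub_mul]
  exact mul_le_mul_of_nonneg_right h2.le (by positivity)

theorem val_shift (A : Fin k → Fin k → ℤ) (l : Fin k → ℤ) (c : ℤ) (Q : ℕ) : ∃ C : ℝ, ∀ N : ℕ, 1 ≤ N →
    ∀ x u : Fin k → ℤ, (∀ i, |x i| ≤ N) → (∀ i, |u i| ≤ Q) → |((Val A l c (x + u) - Val A l c x : ℤ) : ℝ)| ≤ C * N := by
  obtain ⟨C, hC⟩ := ((cube_finite k Q).image (fun u => ∑ i, |(Lf A u i : ℝ)| + |(Pol A l 0 u : ℝ)|)).bddAbove
  refine ⟨C, fun N hN x u hx hu => ?_⟩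
  have h1 : ∑ i, |(Lf A u i : ℝ)| + |(Pol A l 0 u : ℝ)| ≤ C := hC (Set.mem_image_of_mem _ hu)
  have hNr : (1 : ℝ) ≤ N := by exact_mod_cast hN
  have h2 : Val A l c (x + u) - Val A l c x = (∑ i, Lf A u i * x i) + Pol A l 0 u := Pol_add A l c x u
  rw [h2]
  push_cast
  have h3 : |∑ i, (Lf A u i : ℝ) * (x i : ℝ)| ≤ (∑ i, |(Lf A u i : ℝ)|) * N := by
    rw [sum_mul]
    refine (abs_sum_le_sum_abs _ _).trans (sum_le_sum fun i _ => ?_)
    rw [abs_mul]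
    have : |(x i : ℝ)| ≤ N := by exact_mod_cast hx i
    gcongr
  have h4 : |(Pol A l 0 u : ℝ)| ≤ |(Pol A l 0 u : ℝ)| * N := le_mul_of_one_le_right (abs_nonneg _) hNr
  calc _ ≤ |∑ i, (Lf A u i : ℝ) * (x i : ℝ)| + |(Pol A l 0 u : ℝ)| := abs_add_le _ _
    _ ≤ (∑ i, |(Lf A u i : ℝ)|) * N + |(Pol A l 0 u : ℝ)| * N := add_le_add h3 h4
    _ = (∑ i, |(Lf A u i : ℝ)| + |(Pol A l 0 u : ℝ)|) * N := by ring
    _ ≤ C * N := by gcongr

open Classical in
/-- the points in a residue class -/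
noncomputable def Cl (A : Fin k → Fin k → ℤ) (l : Fin k → ℤ) (c : ℤ) (Q N : ℕ) (r : Fin k → ℤ) : Finset (Fin k → ℤ) :=
  {x ∈ cb k N | 0 < Val A l c x ∧ ∀ i, x i ≡ r i [ZMOD Q]}

open Classical in
theorem shift_le {A : Fin k → Fin k → ℤ} (hA : RankTwo A) (l : Fin k → ℤ) (c : ℤ) {Q : ℕ} (hQ : 1 ≤ Q) {ε : ℝ}
    (hε : 0 < ε) : ∀ᶠ N : ℕ in atTop, ∀ r r' : Fin k → ℤ,
      (#(Cl A l c Q N r) : ℝ) ≤ #(Cl A l c Q N r') + ε * N ^ k := by
  obtain ⟨C, hC⟩ := val_shift A l c Q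
  filter_upwards [small_cb hA l c C (show 0 < ε / 2 by positivity), shell (k := k) Q (show 0 < ε / 2 by positivity),
    eventually_ge_atTop 1] with N h1 h2 hN r r'
  have hQ0 : (0 : ℤ) < Q := by exact_mod_cast hQ
  set u : Fin k → ℤ := fun i => (r' i - r i) % Q with hu
  have huQ : ∀ i, 0 ≤ u i ∧ u i < Q := fun i => ⟨Int.emod_nonneg _ hQ0.ne', Int.emod_lt_of_pos _ hQ0⟩
  have huQ' : ∀ i, |u i| ≤ Q := fun i => by rw [abs_of_nonneg (huQ i).1]; exact (huQ i).2.le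
  have hur : ∀ i, r i + u i ≡ r' i [ZMOD Q] := by
    intro i
    have h3 : (r' i - r i) % Q ≡ r' i - r i [ZMOD Q] := Int.mod_modEq _ _
    have h4 := h3.add_left (r i)
    rwa [add_sub_cancel] at h4
  have hinj : Function.Injective (fun x : Fin k → ℤ => x + u) := fun x y h => by simpa using h
  have hsub : Cl A l c Q N r ⊆
      (({x ∈ cb k N | 0 < Val A l c x ∧ (Val A l c x : ℝ) ≤ C * N} : Finset (Fin k → ℤ)) ∪
      ({x ∈ cb k N | x + u ∉ cb k N} : Finset (Fin k → ℤ))) ∪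
      ({x ∈ cb k N | x + u ∈ Cl A l c Q N r'} : Finset (Fin k → ℤ)) := by
    intro x hx
    unfold Cl at hx
    rw [mem_filter] at hx
    obtain ⟨g1, g2, g3⟩ := hx
    rw [mem_union, mem_union, mem_filter, mem_filter, mem_filter]
    by_cases g4 : (Val A l c x : ℝ) ≤ C * N
    · exact Or.inl (Or.inl ⟨g1, g2, g4⟩)
    · by_cases g5 : x + u ∈ cb k N
      · right
        refine ⟨g1, ?_⟩
        unfold Cl
        rw [mem_filter]
        refine ⟨g5, ?_, fun i => ?_⟩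
        · have g6 := (abs_le.1 (hC N hN x u (mem_cb.1 g1) huQ')).1
          push_cast at g6
          have g7 : (0 : ℝ) < (Val A l c (x + u) : ℤ) := by push Not at g4; linarith
          exact_mod_cast g7
        · exact ((g3 i).add_right (u i)).trans (hur i)
      · exact Or.inl (Or.inr ⟨g1, g5⟩)
  have h3 : #({x ∈ cb k N | x + u ∉ cb k N} : Finset (Fin k → ℤ)) ≤ #(cb k (N + Q) \ cb k N) := by
    apply card_le_card_of_injOn (fun x => x + u)
    · intro x hx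
      rw [mem_coe, mem_filter] at hx
      rw [mem_coe, Finset.mem_sdiff]
      refine ⟨?_, hx.2⟩
      rw [mem_cb]
      intro i
      have g1 := mem_cb.1 hx.1 i
      have g2 := abs_add_le (x i) (u i)
      have g3 := huQ' i
      show |x i + u i| ≤ _
      push_cast
      linarith
    · exact fun x _ y _ h => hinj h
  have h4 : #({x ∈ cb k N | x + u ∈ Cl A l c Q N r'} : Finset (Fin k → ℤ)) ≤ #(Cl A l c Q N r') := by
    apply card_le_card_of_injOn (fun x => x + u)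
    · intro x hx
      rw [mem_coe, mem_filter] at hx
      exact hx.2
    · exact fun x _ y _ h => hinj h
  have h5 : (#(cb k (N + Q) \ cb k N) : ℝ) ≤ ε / 2 * N ^ k := by
    rw [card_sdiff_of_subset (cb_mono (by omega)), card_cb, card_cb, Nat.cast_sub]
    · push_cast
      exact h2
    · apply Nat.pow_le_pow_left; omega
  have h6 : (#(Cl A l c Q N r) : ℝ) ≤
      ((#({x ∈ cb k N | 0 < Val A l c x ∧ (Val A l c x : ℝ) ≤ C * N} : Finset (Fin k → ℤ)) : ℝ) +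
      #({x ∈ cb k N | x + u ∉ cb k N} : Finset (Fin k → ℤ))) +
      #({x ∈ cb k N | x + u ∈ Cl A l c Q N r'} : Finset (Fin k → ℤ)) := by
    exact_mod_cast (card_le_card hsub).trans ((card_union_le _ _).trans (Nat.add_le_add_right (card_union_le _ _) _))
  have h3r : (#({x ∈ cb k N | x + u ∉ cb k N} : Finset (Fin k → ℤ)) : ℝ) ≤ #(cb k (N + Q) \ cb k N) := by exact_mod_cast h3
  have h4r : (#({x ∈ cb k N | x + u ∈ Cl A l c Q N r'} : Finset (Fin k → ℤ)) : ℝ) ≤ #(Cl A l c Q N r') := by exact_mod_cast h4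
  linarith

open Classical in
theorem fiber_sum (A : Fin k → Fin k → ℤ) (l : Fin k → ℤ) (c : ℤ) {Q : ℕ} (hQ : 1 ≤ Q) (N : ℕ)
    (G : (Fin k → ℤ) → Prop) (hG : ∀ x y : Fin k → ℤ, (∀ i, x i ≡ y i [ZMOD Q]) → (G x ↔ G y)) :
    #{x ∈ cb k N | 0 < Val A l c x ∧ G x} =
      ∑ r ∈ (Fintype.piFinset (fun _ : Fin k => Ico (0 : ℤ) Q)).filter G, #(Cl A l c Q N r) := by
  have hQ0 : (0 : ℤ) < Q := by exact_mod_cast hQ
  have hmaps : ∀ x ∈ ({x ∈ cb k N | 0 < Val A l c x ∧ G x} : Finset (Fin k → ℤ)), (fun i => x i % (Q : ℤ)) ∈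
      (Fintype.piFinset (fun _ : Fin k => Ico (0 : ℤ) Q)).filter G := by
    intro x hx
    rw [mem_filter] at hx
    rw [mem_filter, Fintype.mem_piFinset]
    refine ⟨fun i => ?_, ?_⟩
    · rw [mem_Ico]
      exact ⟨Int.emod_nonneg _ hQ0.ne', Int.emod_lt_of_pos _ hQ0⟩
    · exact (hG _ _ fun i => Int.mod_modEq _ _).2 hx.2.2
  rw [card_eq_sum_card_fiberwise hmaps]
  apply sum_congr rfl
  intro r hr
  rw [mem_filter, Fintype.mem_piFinset] at hr
  congr 1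
  ext x
  unfold Cl
  rw [mem_filter, mem_filter, mem_filter]
  constructor
  · rintro ⟨⟨g1, g2, g3⟩, g4⟩
    refine ⟨g1, g2, fun i => ?_⟩
    have g5 : x i % Q = r i := congrFun g4 i
    rw [← g5]
    exact (Int.mod_modEq _ _).symm
  · rintro ⟨g1, g2, g3⟩
    refine ⟨⟨g1, g2, (hG _ _ g3).2 hr.2⟩, ?_⟩
    funext i
    have g5 := mem_Ico.1 (hr.1 i)
    have g6 : x i % Q = r i % Q := g3 i
    rw [g6, Int.emod_eq_of_lt g5.1 g5.2]

open Classical in
/-- EQUIDISTRIBUTION IN RESIDUE CLASSES -/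
theorem equi {A : Fin k → Fin k → ℤ} (hA : RankTwo A) (l : Fin k → ℤ) (c : ℤ) {Q : ℕ} (hQ : 1 ≤ Q)
    (G : (Fin k → ℤ) → Prop) (hG : ∀ x y : Fin k → ℤ, (∀ i, x i ≡ y i [ZMOD Q]) → (G x ↔ G y)) {ε : ℝ} (hε : 0 < ε) :
    ∀ᶠ N : ℕ in atTop, |(#{x ∈ cb k N | 0 < Val A l c x ∧ G x} : ℝ) -
      (#((Fintype.piFinset (fun _ : Fin k => Ico (0 : ℤ) Q)).filter G) : ℝ) / Q ^ k *
        #{x ∈ cb k N | 0 < Val A l c x}| ≤ ε * N ^ k := by
  have hQr : (1 : ℝ) ≤ Q := by exact_mod_cast hQ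
  filter_upwards [shift_le hA l c hQ (show 0 < ε / Q ^ k by positivity)] with N h1
  set F := Fintype.piFinset (fun _ : Fin k => Ico (0 : ℤ) Q) with hF
  have hFc : (#F : ℝ) = Q ^ k := by
    rw [hF, Fintype.card_piFinset]
    simp
  have e1 := fiber_sum A l c hQ N G hG
  have e2 := fiber_sum A l c hQ N (fun _ => True) (fun _ _ _ => Iff.rfl)
  simp only [and_true, filter_true] at e2
  rw [e1, e2]
  push_cast
  have hQk : (0 : ℝ) < Q ^ k := by positivity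
  have e3 : ∑ r ∈ F.filter G, (#(Cl A l c Q N r) : ℝ) - (#(F.filter G) : ℝ) / Q ^ k * ∑ r ∈ F, (#(Cl A l c Q N r) : ℝ) =
      (1 / Q ^ k) * ∑ r ∈ F.filter G, ∑ r' ∈ F, ((#(Cl A l c Q N r) : ℝ) - #(Cl A l c Q N r')) := by
    have e4 : ∀ r ∈ F.filter G, ∑ r' ∈ F, ((#(Cl A l c Q N r) : ℝ) - #(Cl A l c Q N r')) =
        Q ^ k * (#(Cl A l c Q N r) : ℝ) - ∑ r' ∈ F, (#(Cl A l c Q N r') : ℝ) := by
      intro r _
      rw [sum_sub_distrib, sum_const, nsmul_eq_mul, hFc]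
    rw [sum_congr rfl e4, sum_sub_distrib, sum_const, nsmul_eq_mul, ← mul_sum]
    field_simp
  rw [e3, abs_mul, abs_of_pos (by positivity : (0 : ℝ) < 1 / Q ^ k)]
  have h2 : |∑ r ∈ F.filter G, ∑ r' ∈ F, ((#(Cl A l c Q N r) : ℝ) - #(Cl A l c Q N r'))| ≤
      ∑ r ∈ F.filter G, ∑ r' ∈ F, ε / Q ^ k * (N : ℝ) ^ k := by
    refine (abs_sum_le_sum_abs _ _).trans (sum_le_sum fun r _ => ?_)
    refine (abs_sum_le_sum_abs _ _).trans (sum_le_sum fun r' _ => ?_)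
    have g1 := h1 r r'
    have g2 := h1 r' r
    rw [abs_le]
    constructor <;> linarith
  have h3 : ∑ r ∈ F.filter G, ∑ r' ∈ F, ε / Q ^ k * (N : ℝ) ^ k ≤ Q ^ k * (Q ^ k * (ε / Q ^ k * (N : ℝ) ^ k)) := by
    rw [sum_const, sum_const, nsmul_eq_mul, nsmul_eq_mul, hFc]
    have : (#(F.filter G) : ℝ) ≤ Q ^ k := by
      rw [← hFc]
      exact_mod_cast card_filter_le _ _
    gcongr
  calc 1 / (Q : ℝ) ^ k * _ ≤ 1 / Q ^ k * (Q ^ k * (Q ^ k * (ε / Q ^ k * (N : ℝ) ^ k))) := by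
        gcongr
        exact h2.trans h3
    _ = ε * N ^ k := by field_simp

end Pool.Agent.Run7.h145.QX
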