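import Pool.Agent.Run7.h145.QX.G

/-! Values of quadratic polynomials: the limit law of the maximum excursion. -/

set_option autoImplicit false

namespace Pool.Agent.Run7.h145.QX

open Finset Filter Topology
open Pool.Agent.H499R2.ND
open Pool.Agent.Run7.h145.QP (Pol Sy Lf Pol_add)
open Pool.Agent.Run7.h145.QL
open Pool.Agent.Run7.h145.QL.X

variable {k : ℕ}

theorem ncard_cb (N : ℕ) (Q : (Fin k → ℤ) → Prop) [DecidablePred Q] :
    {x : Fin k → ℤ | (∀ i, |x i| ≤ N) ∧ Q x}.ncard = #{x ∈ cb k N | Q x} := by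
  rw [← Set.ncard_coe_finset]
  congr 1
  ext x
  rw [mem_coe, mem_filter, mem_cb]
  rfl

open Classical in
/-- the law on cubes -/
theorem law_cb {S : ℕ → Prop} {δ : ℝ} (hS : FI S) (hδ : Dn S δ) {A : Fin k → Fin k → ℤ} (hA : RankTwo A)
    (l : Fin k → ℤ) (c : ℤ) {ε : ℝ}
    (hε : 0 < ε) : ∃ K₀ : ℕ, ∀ K : ℕ, K₀ ≤ K → ∀ lam : ℝ, 1 ≤ lam → ∀ᶠ N : ℕ in atTop,
      |(#{x ∈ cb k N | 0 < Val A l c x ∧ S (Val A l c x).toNat ∧ Ex lam (Val A l c x).toNat} : ℝ) -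
        δ * #{x ∈ cb k N | 0 < Val A l c x ∧ AK K lam (Val A l c x).toNat}| ≤ ε * N ^ k := by
  obtain ⟨L, hL0, hL1, hL2⟩ := coef_bound l c
  obtain ⟨K₀, h1⟩ := law hA hL0 (show 0 < ε / 2 ^ k by positivity)
  refine ⟨K₀, fun K hK lam hlam => ?_⟩
  obtain ⟨R₀, h2⟩ := h1 K hK lam 1 hlam le_rfl S δ hS hδ
  filter_upwards [eventually_ge_atTop (R₀ + 1)] with N hN
  have hN1 : (1 : ℝ) ≤ N := by exact_mod_cast (by omega : 1 ≤ N)
  obtain ⟨V, hV0, hV⟩ := val_bd A l c N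
  have h3 := h2 (N + 1) (by omega) l c (fun _ => -(N : ℤ) - 1) (fun _ => (N : ℤ)) (fun i => by
      push_cast
      have := hL1 i
      nlinarith) (by
      push_cast
      have : (1 : ℝ) ≤ ((N : ℝ) + 1) ^ 2 := by nlinarith
      nlinarith) (fun i => by
      constructor
      · rw [abs_le]; push_cast; constructor <;> omega
      · rw [abs_le]; push_cast; constructor <;> omega) 0 V Set.univ (fun _ _ _ => Iff.rfl)
  have e1 : ∀ (P : ℕ → Prop) [DecidablePred P], {x ∈ Points A l c (fun _ => -(N : ℤ) - 1) (fun _ => (N : ℤ)) 0 V Set.univ |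
      P (Val A l c x).toNat}.ncard = #{x ∈ cb k N | 0 < Val A l c x ∧ P (Val A l c x).toNat} := by
    intro P _
    rw [← ncard_cb]
    congr 1
    ext x
    constructor
    · rintro ⟨⟨g1, g2, g3, -⟩, g5⟩; exact ⟨cube_iff.2 g1, g3, g5⟩
    · rintro ⟨g1, g3, g5⟩
      exact ⟨⟨cube_iff.1 g1, ⟨g3, (le_abs_self _).trans (hV x g1)⟩, g3, trivial⟩, g5⟩
  rw [e1 (fun n => S n ∧ Ex lam n), e1] at h3
  refine h3.trans ?_
  calc ε / 2 ^ k * ((N + 1 : ℕ) : ℝ) ^ k ≤ ε / 2 ^ k * (2 * N) ^ k := by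
        gcongr
        push_cast; linarith
    _ = ε * (N : ℝ) ^ k := by rw [mul_pow]; field_simp

open Classical in
/-- the tail on cubes -/
theorem tail_cb {A : Fin k → Fin k → ℤ} (hA : RankTwo A) (l : Fin k → ℤ) (c : ℤ) {ε : ℝ}
    (hε : 0 < ε) : ∃ Λ : ℝ, 1 ≤ Λ ∧ ∀ᶠ N : ℕ in atTop,
      (#{x ∈ cb k N | 0 < Val A l c x ∧ Bdd (Val A l c x).toNat ∧ ¬ Ex Λ (Val A l c x).toNat} : ℝ) ≤ ε * N ^ k := by
  obtain ⟨L, hL0, hL1, hL2⟩ := coef_bound l c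
  obtain ⟨Λ, hΛ, R₀, h1⟩ := tail hA hL0 (show 0 < ε / 2 ^ k by positivity)
  refine ⟨Λ, hΛ, ?_⟩
  filter_upwards [eventually_ge_atTop (R₀ + 1)] with N hN
  have hN1 : (1 : ℝ) ≤ N := by exact_mod_cast (by omega : 1 ≤ N)
  have h3 := h1 (N + 1) (by omega) l c (fun _ => -(N : ℤ) - 1) (fun _ => (N : ℤ)) (fun i => by
      push_cast
      have := hL1 i
      nlinarith) (by
      push_cast
      have : (1 : ℝ) ≤ ((N : ℝ) + 1) ^ 2 := by nlinarith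
      nlinarith) (fun i => by
      constructor
      · rw [abs_le]; push_cast; constructor <;> omega
      · rw [abs_le]; push_cast; constructor <;> omega)
  have e1 : {x : Fin k → ℤ | (∀ i, (fun _ => -(N : ℤ) - 1) i < x i ∧ x i ≤ (fun _ => (N : ℤ)) i) ∧ 0 < Val A l c x ∧
      Bdd (Val A l c x).toNat ∧ ¬ Ex Λ (Val A l c x).toNat}.ncard =
      #{x ∈ cb k N | 0 < Val A l c x ∧ Bdd (Val A l c x).toNat ∧ ¬ Ex Λ (Val A l c x).toNat} := by
    rw [← ncard_cb]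
    congr 1
    ext x
    constructor
    · rintro ⟨g1, g2⟩; exact ⟨cube_iff.2 g1, g2⟩
    · rintro ⟨g1, g2⟩; exact ⟨cube_iff.1 g1, g2⟩
  rw [e1] at h3
  refine h3.trans ?_
  calc ε / 2 ^ k * ((N + 1 : ℕ) : ℝ) ^ k ≤ ε / 2 ^ k * (2 * N) ^ k := by
        gcongr
        push_cast; linarith
    _ = ε * (N : ℝ) ^ k := by rw [mul_pow]; field_simp

open Classical in
/-- the proportion of the residue classes modulo `2 ^ K` of points with a safe value -/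
noncomputable def sig (A : Fin k → Fin k → ℤ) (l : Fin k → ℤ) (c : ℤ) (lam : ℝ) (K : ℕ) : ℝ :=
  (#((Fintype.piFinset (fun _ : Fin k => Ico (0 : ℤ) ((2 ^ K : ℕ) : ℤ))).filter
    (fun r => AK K lam (Val A l c r % 2 ^ K).toNat)) : ℝ) / ((2 ^ K : ℕ) : ℝ) ^ k

theorem sig_nonneg (A : Fin k → Fin k → ℤ) (l : Fin k → ℤ) (c : ℤ) (lam : ℝ) (K : ℕ) : 0 ≤ sig A l c lam K := by
  unfold sig; positivity

open Classical in
theorem equi_AK {A : Fin k → Fin k → ℤ} (hA : RankTwo A) (l : Fin k → ℤ) (c : ℤ) (lam : ℝ) (K : ℕ) {ε : ℝ}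
    (hε : 0 < ε) : ∀ᶠ N : ℕ in atTop, |(#{x ∈ cb k N | 0 < Val A l c x ∧ AK K lam (Val A l c x).toNat} : ℝ) -
      sig A l c lam K * #{x ∈ cb k N | 0 < Val A l c x}| ≤ ε * N ^ k := by
  have h1 := equi hA l c (Q := 2 ^ K) Nat.one_le_two_pow (fun x => AK K lam (Val A l c x % 2 ^ K).toNat) (by
    intro x y hxy
    have g2 : Val A l c x ≡ Val A l c y [ZMOD 2 ^ K] := val_congr A l c (2 ^ K) fun i => by
      have := hxy i
      push_cast at this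
      exact this
    rw [show Val A l c x % 2 ^ K = Val A l c y % 2 ^ K from g2]) hε
  filter_upwards [h1] with N h2
  have e : #{x ∈ cb k N | 0 < Val A l c x ∧ AK K lam (Val A l c x).toNat} =
      #{x ∈ cb k N | 0 < Val A l c x ∧ AK K lam (Val A l c x % 2 ^ K).toNat} := by
    congr 1
    apply filter_congr
    intro x _
    constructor
    · rintro ⟨g1, g2⟩; exact ⟨g1, by rw [mod_toNat g1, AK_mod]; exact g2⟩
    · rintro ⟨g1, g2⟩; exact ⟨g1, by rw [mod_toNat g1, AK_mod] at g2; exact g2⟩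
  rw [e]
  exact h2

open Classical in
theorem pos_cb (A : Fin k → Fin k → ℤ) (l : Fin k → ℤ) (c : ℤ) {x₀ : Fin k → ℤ}
    (h0 : 0 < ∑ i, ∑ j, A i j * x₀ i * x₀ j) : ∃ κ : ℝ, 0 < κ ∧ ∀ᶠ N : ℕ in atTop,
      κ * (N : ℝ) ^ k ≤ (#{x ∈ cb k N | 0 < Val A l c x} : ℝ) := by
  obtain ⟨κ, hκ, h1⟩ := pos_prop A l c h0
  refine ⟨κ, hκ, ?_⟩
  filter_upwards [h1] with N h2
  rwa [ncard_cb] at h2

open Classical in
theorem lim_AK {A : Fin k → Fin k → ℤ} (hA : RankTwo A) (l : Fin k → ℤ) (c : ℤ) {x₀ : Fin k → ℤ}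
    (h0 : 0 < ∑ i, ∑ j, A i j * x₀ i * x₀ j) (lam : ℝ) (K : ℕ) :
    Tendsto (fun N : ℕ => (#{x ∈ cb k N | 0 < Val A l c x ∧ AK K lam (Val A l c x).toNat} : ℝ) /
      #{x ∈ cb k N | 0 < Val A l c x}) atTop (𝓝 (sig A l c lam K)) := by
  obtain ⟨κ, hκ, hpos⟩ := pos_cb A l c h0
  exact ratio_lim hκ hpos fun ε hε => equi_AK hA l c lam K hε

theorem AK_succ {K : ℕ} {lam : ℝ} {n : ℕ} (h : AK (K + 1) lam n) : AK K lam n := fun k hk1 hk2 => h k hk1 (by omega)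

theorem sig_anti {A : Fin k → Fin k → ℤ} (hA : RankTwo A) (l : Fin k → ℤ) (c : ℤ) {x₀ : Fin k → ℤ}
    (h0 : 0 < ∑ i, ∑ j, A i j * x₀ i * x₀ j) (lam : ℝ) : Antitone (sig A l c lam) := by
  classical
  apply antitone_nat_of_succ_le
  intro K
  refine le_of_tendsto_of_tendsto' (lim_AK hA l c h0 lam (K + 1)) (lim_AK hA l c h0 lam K) fun N => ?_
  apply div_le_div_of_nonneg_right _ (Nat.cast_nonneg _)
  apply Nat.cast_le.2
  apply card_le_card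
  intro x hx
  rw [mem_filter] at hx ⊢
  exact ⟨hx.1, hx.2.1, AK_succ hx.2.2⟩

theorem sig_zero_le (A : Fin k → Fin k → ℤ) (l : Fin k → ℤ) (c : ℤ) (lam : ℝ) (K : ℕ) : sig A l c lam K ≤ 1 := by
  classical
  unfold sig
  rw [div_le_one (by positivity)]
  have h := card_filter_le (Fintype.piFinset (fun _ : Fin k => Ico (0 : ℤ) ((2 ^ K : ℕ) : ℤ)))
    (fun r => AK K lam (Val A l c r % 2 ^ K).toNat)
  rw [Fintype.card_piFinset] at h
  simp only [Int.card_Ico, sub_zero, Int.toNat_natCast, prod_const, card_univ, Fintype.card_fin] at h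
  exact_mod_cast h

open Classical in
theorem pos_le (A : Fin k → Fin k → ℤ) (l : Fin k → ℤ) (c : ℤ) {N : ℕ} (hN : 1 ≤ N) :
    (#{x ∈ cb k N | 0 < Val A l c x} : ℝ) ≤ 3 ^ k * N ^ k := by
  have h1 : #{x ∈ cb k N | 0 < Val A l c x} ≤ (2 * N + 1) ^ k := by
    rw [← card_cb]; exact card_filter_le _ _
  have h2 : (2 * N + 1) ^ k ≤ (3 * N) ^ k := Nat.pow_le_pow_left (by omega) _
  have h3 : (#{x ∈ cb k N | 0 < Val A l c x} : ℝ) ≤ ((3 * N) ^ k : ℕ) := by exact_mod_cast h1.trans h2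
  refine h3.trans (le_of_eq ?_)
  push_cast
  rw [mul_pow]

/-- the limit of the proportion of the safe classes -/
theorem sig_lim {A : Fin k → Fin k → ℤ} (hA : RankTwo A)
    (l : Fin k → ℤ) (c : ℤ) {x₀ : Fin k → ℤ} (h0 : 0 < ∑ i, ∑ j, A i j * x₀ i * x₀ j) (lam : ℝ) :
    ∃ σ : ℝ, Tendsto (sig A l c lam) atTop (𝓝 σ) ∧ 0 ≤ σ ∧ σ ≤ 1 := by
  have hlim := tendsto_atTop_ciInf (sig_anti hA l c h0 lam) ⟨0, by rintro _ ⟨K, rfl⟩; exact sig_nonneg A l c lam K⟩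
  exact ⟨_, hlim, ge_of_tendsto' hlim fun K => sig_nonneg A l c lam K,
    le_of_tendsto' hlim fun K => sig_zero_le A l c lam K⟩

open Classical in
/-- THE LIMIT LAW -/
theorem limit_law {S : ℕ → Prop} {δ : ℝ} (hδ0 : 0 ≤ δ) (hδ1 : δ ≤ 1) (hS : FI S) (hδ : Dn S δ)
    {A : Fin k → Fin k → ℤ} (hA : RankTwo A)
    (l : Fin k → ℤ) (c : ℤ) {x₀ : Fin k → ℤ} (h0 : 0 < ∑ i, ∑ j, A i j * x₀ i * x₀ j) {lam : ℝ} (hlam : 1 ≤ lam)
    {σ : ℝ} (hlim : Tendsto (sig A l c lam) atTop (𝓝 σ)) :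
      Tendsto (fun N : ℕ => (#{x ∈ cb k N | 0 < Val A l c x ∧ S (Val A l c x).toNat ∧ Ex lam (Val A l c x).toNat} : ℝ) /
        #{x ∈ cb k N | 0 < Val A l c x}) atTop (𝓝 (δ * σ)) := by
  obtain ⟨κ, hκ, hpos⟩ := pos_cb A l c h0
  refine ratio_lim hκ hpos fun ε hε => ?_
  obtain ⟨K₀, h1⟩ := law_cb hS hδ hA l c (show 0 < ε / 3 by positivity)
  obtain ⟨K₁, h2⟩ := Metric.tendsto_atTop.1 hlim (ε / 3 / 3 ^ k) (by positivity)
  set K := K₀ + K₁ with hK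
  have h3 := h2 K (by omega)
  rw [Real.dist_eq] at h3
  filter_upwards [h1 K (by omega) lam hlam, equi_AK hA l c lam K (show 0 < ε / 3 by positivity), eventually_ge_atTop 1]
    with N g1 g2 hN
  have g3 := pos_le A l c hN
  have hN0 : (0 : ℝ) ≤ (N : ℝ) ^ k := by positivity
  have g4 : |δ * ((#{x ∈ cb k N | 0 < Val A l c x ∧ AK K lam (Val A l c x).toNat} : ℝ) -
      sig A l c lam K * #{x ∈ cb k N | 0 < Val A l c x})| ≤ ε / 3 * N ^ k := by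
    rw [abs_mul, abs_of_nonneg hδ0]
    calc δ * _ ≤ 1 * (ε / 3 * N ^ k) := mul_le_mul hδ1 g2 (abs_nonneg _) zero_le_one
      _ = _ := one_mul _
  have g5 : |δ * ((sig A l c lam K - σ) * #{x ∈ cb k N | 0 < Val A l c x})| ≤ ε / 3 * N ^ k := by
    rw [abs_mul, abs_mul, abs_of_nonneg hδ0, abs_of_nonneg (Nat.cast_nonneg (α := ℝ) _)]
    calc δ * (|sig A l c lam K - σ| * _) ≤ 1 * (ε / 3 / 3 ^ k * (3 ^ k * N ^ k)) := by
          apply mul_le_mul hδ1 _ (by positivity) zero_le_one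
          exact mul_le_mul h3.le g3 (Nat.cast_nonneg _) (by positivity)
      _ = ε / 3 * N ^ k := by field_simp
  have e : (#{x ∈ cb k N | 0 < Val A l c x ∧ S (Val A l c x).toNat ∧ Ex lam (Val A l c x).toNat} : ℝ) -
      δ * σ * #{x ∈ cb k N | 0 < Val A l c x} =
      ((#{x ∈ cb k N | 0 < Val A l c x ∧ S (Val A l c x).toNat ∧ Ex lam (Val A l c x).toNat} : ℝ) -
        δ * #{x ∈ cb k N | 0 < Val A l c x ∧ AK K lam (Val A l c x).toNat}) +
      δ * ((#{x ∈ cb k N | 0 < Val A l c x ∧ AK K lam (Val A l c x).toNat} : ℝ) -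
        sig A l c lam K * #{x ∈ cb k N | 0 < Val A l c x}) +
      δ * ((sig A l c lam K - σ) * #{x ∈ cb k N | 0 < Val A l c x}) := by ring
  rw [e]
  refine (abs_add_three _ _ _).trans ?_
  linarith

open Classical in
/-- the proportion with a finite maximum excursion -/
theorem lim_Bdd {β : ℝ} (hβ : Dn Bdd β) {A : Fin k → Fin k → ℤ} (hA : RankTwo A)
    (l : Fin k → ℤ) (c : ℤ) {x₀ : Fin k → ℤ} (h0 : 0 < ∑ i, ∑ j, A i j * x₀ i * x₀ j) :
    Tendsto (fun N : ℕ => (#{x ∈ cb k N | 0 < Val A l c x ∧ Bdd (Val A l c x).toNat} : ℝ) /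
        #{x ∈ cb k N | 0 < Val A l c x}) atTop (𝓝 β) := by
  refine (cubes (freq_Bdd hβ) hA l c h0).congr fun N => ?_
  rw [ncard_cb, ncard_cb]

/-- the limits tend to one -/
theorem sig_top {β : ℝ} (hβ0 : 0 < β) (hβ : Dn Bdd β) {A : Fin k → Fin k → ℤ} (hA : RankTwo A)
    (l : Fin k → ℤ) (c : ℤ) {x₀ : Fin k → ℤ} (h0 : 0 < ∑ i, ∑ j, A i j * x₀ i * x₀ j) {ε : ℝ} (hε : 0 < ε) :
    ∃ Λ : ℝ, 1 ≤ Λ ∧ ∀ lam : ℝ, Λ ≤ lam → ∀ σ : ℝ, (open Classical in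
      Tendsto (fun N : ℕ => (#{x ∈ cb k N | 0 < Val A l c x ∧ Bdd (Val A l c x).toNat ∧
        Ex lam (Val A l c x).toNat} : ℝ) /
        #{x ∈ cb k N | 0 < Val A l c x}) atTop (𝓝 (β * σ))) → 1 - ε ≤ σ := by
  classical
  obtain ⟨κ, hκ, hpos⟩ := pos_cb A l c h0
  obtain ⟨Λ, hΛ, h1⟩ := tail_cb hA l c (show 0 < ε * β * κ by positivity)
  refine ⟨Λ, hΛ, fun lam hlam σ hσ => ?_⟩
  have h2 := lim_Bdd hβ hA l c h0
  have h3 : β - β * σ ≤ ε * β := by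
    refine le_of_tendsto (h2.sub hσ) ?_
    filter_upwards [h1, hpos, eventually_ge_atTop 1] with N g1 g2 hN
    have hN0 : (0 : ℝ) < (N : ℝ) ^ k := by
      have : (0 : ℝ) < N := by exact_mod_cast hN
      positivity
    have hP : (0 : ℝ) < #{x ∈ cb k N | 0 < Val A l c x} := lt_of_lt_of_le (by positivity) g2
    have hsub : ({x ∈ cb k N | 0 < Val A l c x ∧ Bdd (Val A l c x).toNat} : Finset (Fin k → ℤ)) ⊆
        ({x ∈ cb k N | 0 < Val A l c x ∧ Bdd (Val A l c x).toNat ∧ Ex lam (Val A l c x).toNat} : Finset (Fin k → ℤ)) ∪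
        ({x ∈ cb k N | 0 < Val A l c x ∧ Bdd (Val A l c x).toNat ∧ ¬ Ex Λ (Val A l c x).toNat} : Finset (Fin k → ℤ)) := by
      intro x hx
      rw [mem_filter] at hx
      rw [mem_union, mem_filter, mem_filter]
      by_cases g3 : Ex Λ (Val A l c x).toNat
      · refine Or.inl ⟨hx.1, hx.2.1, hx.2.2, fun j => (g3 j).trans ?_⟩
        gcongr
      · exact Or.inr ⟨hx.1, hx.2.1, hx.2.2, g3⟩
    have g4 : (#{x ∈ cb k N | 0 < Val A l c x ∧ Bdd (Val A l c x).toNat} : ℝ) ≤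
        #{x ∈ cb k N | 0 < Val A l c x ∧ Bdd (Val A l c x).toNat ∧ Ex lam (Val A l c x).toNat} +
        #{x ∈ cb k N | 0 < Val A l c x ∧ Bdd (Val A l c x).toNat ∧ ¬ Ex Λ (Val A l c x).toNat} := by
      exact_mod_cast (card_le_card hsub).trans (card_union_le _ _)
    rw [div_sub_div_same, div_le_iff₀ hP]
    have g5 : ε * β * (κ * (N : ℝ) ^ k) ≤ ε * β * #{x ∈ cb k N | 0 < Val A l c x} :=
      mul_le_mul_of_nonneg_left g2 (by positivity)
    linarith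
  have h4 : β * (1 - ε - σ) ≤ 0 := by linarith
  by_contra hcon
  push Not at hcon
  have : 0 < β * (1 - ε - σ) := mul_pos hβ0 (by linarith)
  linarith

open Classical in
/-- growing bounds -/
theorem few_f {A : Fin k → Fin k → ℤ} (hA : RankTwo A) (l : Fin k → ℤ) (c : ℤ) {x₀ : Fin k → ℤ}
    (h0 : 0 < ∑ i, ∑ j, A i j * x₀ i * x₀ j) {f : ℕ → ℝ} (hf : Tendsto f atTop atTop) :
    Tendsto (fun N : ℕ => (#{x ∈ cb k N | 0 < Val A l c x ∧ Bdd (Val A l c x).toNat ∧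
        ¬ Ex (f (Val A l c x).toNat) (Val A l c x).toNat} : ℝ) /
        #{x ∈ cb k N | 0 < Val A l c x}) atTop (𝓝 0) := by
  obtain ⟨κ, hκ, hpos⟩ := pos_cb A l c h0
  refine ratio_lim hκ hpos fun ε hε => ?_
  obtain ⟨Λ, hΛ, h1⟩ := tail_cb hA l c (show 0 < ε / 2 by positivity)
  obtain ⟨n₀, h2⟩ := eventually_atTop.1 (hf.eventually_ge_atTop Λ)
  filter_upwards [h1, small_cb hA l c n₀ (show 0 < ε / 2 by positivity), eventually_ge_atTop 1] with N g1 g2 hN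
  rw [zero_mul, sub_zero, abs_of_nonneg (Nat.cast_nonneg _)]
  have hNr : (1 : ℝ) ≤ N := by exact_mod_cast hN
  have hsub : ({x ∈ cb k N | 0 < Val A l c x ∧ Bdd (Val A l c x).toNat ∧
      ¬ Ex (f (Val A l c x).toNat) (Val A l c x).toNat} : Finset (Fin k → ℤ)) ⊆
      ({x ∈ cb k N | 0 < Val A l c x ∧ Bdd (Val A l c x).toNat ∧ ¬ Ex Λ (Val A l c x).toNat} : Finset (Fin k → ℤ)) ∪
      ({x ∈ cb k N | 0 < Val A l c x ∧ (Val A l c x : ℝ) ≤ n₀ * N} : Finset (Fin k → ℤ)) := by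
    intro x hx
    rw [mem_filter] at hx
    obtain ⟨q1, q2, q3, q4⟩ := hx
    rw [mem_union, mem_filter, mem_filter]
    by_cases g3 : n₀ ≤ (Val A l c x).toNat
    · refine Or.inl ⟨q1, q2, q3, fun g4 => q4 fun j => (g4 j).trans ?_⟩
      have := h2 _ g3
      gcongr
    · right
      refine ⟨q1, q2, ?_⟩
      have g5 : Val A l c x ≤ (n₀ : ℤ) := by omega
      have g6 : (Val A l c x : ℝ) ≤ n₀ := by exact_mod_cast g5
      have : (0 : ℝ) ≤ n₀ := Nat.cast_nonneg _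
      nlinarith
  have g3 : (#{x ∈ cb k N | 0 < Val A l c x ∧ Bdd (Val A l c x).toNat ∧
      ¬ Ex (f (Val A l c x).toNat) (Val A l c x).toNat} : ℝ) ≤
      #{x ∈ cb k N | 0 < Val A l c x ∧ Bdd (Val A l c x).toNat ∧ ¬ Ex Λ (Val A l c x).toNat} +
      #{x ∈ cb k N | 0 < Val A l c x ∧ (Val A l c x : ℝ) ≤ n₀ * N} := by
    exact_mod_cast (card_le_card hsub).trans (card_union_le _ _)
  linarith

end Pool.Agent.Run7.h145.QX
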